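import Mathlib

set_option autoImplicit false
set_option linter.unusedSimpArgs false

/-!
# A closed set of dicotic games with the evil twin property without an evilly normal kernel

Let `* = {0 | 0}`, `*2 = {0, * | 0, *}`, `u = {0, * | 0}`, `d = {0 | 0, *}` and `G = {0, *2 | 0, u, d}`. The set `A` of
the games which are (up to order and repetition of options) sums `j * + a *2 + b u + c d + e G` is closed,
consists of dicotic games, contains `*` and has the evil twin property. Every evil kernel `K` of `A`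
contains `u + G + G`, but neither `u` nor `G`; hence `(A, K)` is not evilly normal.
-/

namespace Pool.Agent.Results.MP_df1cff_co.NoEvillyNormalKernel

/-- Short partizan games: a game is given by finitely many Left options `l 0, ..., l (m - 1)` and finitely
many Right options `r 0, ..., r (n - 1)`. -/
inductive Game : Type
  | mk (m n : ℕ) (l : Fin m → Game) (r : Fin n → Game) : Game

namespace Game

/-- the list of the options of the player `s` (`true` is Left, `false` is Right) -/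
def opts : Bool → Game → List Game
  | true, mk _ _ l _ => List.ofFn l
  | false, mk _ _ _ r => List.ofFn r

/-- the game with the Left options in the list `L` and the Right options in the list `R` -/
def game (L R : List Game) : Game := mk L.length R.length L.get R.get

/-- a measure for recursions: larger for a game than for its options -/
def rank : Game → ℕ
  | mk _ _ l r => (Finset.univ.sup fun i => rank (l i)) + (Finset.univ.sup fun j => rank (r j)) + 1

theorem rank_lt {s : Bool} {x y : Game} (h : y ∈ opts s x) : rank y < rank x := by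
  cases x with
  | mk m n l r =>
    rw [rank]
    cases s
    · have h' : y ∈ List.ofFn r := h
      rw [List.mem_ofFn] at h'
      obtain ⟨j, rfl⟩ := h'
      have : rank (r j) ≤ Finset.univ.sup fun j => rank (r j) :=
        Finset.le_sup (f := fun j => rank (r j)) (Finset.mem_univ j)
      omega
    · have h' : y ∈ List.ofFn l := h
      rw [List.mem_ofFn] at h'
      obtain ⟨i, rfl⟩ := h'
      have : rank (l i) ≤ Finset.univ.sup fun i => rank (l i) :=
        Finset.le_sup (f := fun i => rank (l i)) (Finset.mem_univ i)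
      omega

theorem opts_game_true (L R : List Game) : opts true (game L R) = L := List.ofFn_get L

theorem opts_game_false (L R : List Game) : opts false (game L R) = R := List.ofFn_get R

/-- The disjunctive sum `x + y`: its options are the `a + y`, `a` an option of `x`, and the `x + b`, `b` an option
of `y`. -/
def add (x y : Game) : Game :=
  game ((opts true x).attach.map (fun a => add a.1 y) ++ (opts true y).attach.map (fun b => add x b.1))
    ((opts false x).attach.map (fun a => add a.1 y) ++ (opts false y).attach.map (fun b => add x b.1))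
termination_by rank x + rank y
decreasing_by
  all_goals first
    | (have := rank_lt a.2; omega)
    | (have := rank_lt b.2; omega)

/-- The player `s` wins `x` when moving first, in misère play (`mis = true`) or in normal play
(`mis = false`): either `s` cannot move and the play is misère, or some move of `s` leads to a game which the
other player, moving first, does not win. -/
def wins (mis s : Bool) (x : Game) : Prop :=
  (mis = true ∧ opts s x = []) ∨ ∃ y, ∃ _ : y ∈ opts s x, ¬ wins mis (!s) y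
termination_by rank x
decreasing_by exact rank_lt (by assumption)

/-- The four outcome classes. -/
inductive Outcome
  | L | R | N | P

open Classical in
/-- The outcome of `x` in misère play (`mis = true`) or in normal play (`mis = false`): `N` if each player wins
moving first, `L` if Left wins whoever moves first, `R` if Right wins whoever moves first, `P` if each
player loses moving first. -/
noncomputable def outcome (mis : Bool) (x : Game) : Outcome :=
  if wins mis true x then (if wins mis false x then Outcome.N else Outcome.L)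
  else (if wins mis false x then Outcome.R else Outcome.P)

/-- Every position of `x` has either no options or options for both players. -/
def Dicotic (x : Game) : Prop :=
  (opts true x = [] ↔ opts false x = []) ∧ ∀ s, ∀ y, ∀ _ : y ∈ opts s x, Dicotic y
termination_by rank x
decreasing_by exact rank_lt (by assumption)

/-- `x` and `y` are the same game up to the order and the repetition of options (in all positions). -/
def Same (x y : Game) : Prop :=
  ∀ s, (∀ a, ∀ _ : a ∈ opts s x, ∃ b, b ∈ opts s y ∧ Same a b) ∧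
    (∀ b, b ∈ opts s y → ∃ a, ∃ _ : a ∈ opts s x, Same a b)
termination_by rank x
decreasing_by all_goals exact rank_lt (by assumption)

/-- `0 = { | }` -/
def zero : Game := game [] []

/-- `* = {0 | 0}` -/
def star : Game := game [zero] [zero]

/-- closed under disjunctive sums and under taking options -/
def Closed (A : Set Game) : Prop :=
  (∀ x ∈ A, ∀ y ∈ A, add x y ∈ A) ∧ ∀ x ∈ A, ∀ s, ∀ y ∈ opts s x, y ∈ A

/-- a set of games which does not distinguish games that differ only in the order and the repetition of options -/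
def Invariant (A : Set Game) : Prop := ∀ x ∈ A, ∀ y, Same x y → y ∈ A

/-- `K` is an evil kernel of `A`: `K` is a subset of `A`, and `o⁺(x) = o⁻(x*)`, `o⁻(x) = o⁺(x*)` for all `x` in `A`, where
`x*` is `x` for `x` in `K`, and `x + *` for `x` not in `K`. -/
def EvilKernel (A K : Set Game) : Prop :=
  K ⊆ A ∧ (∀ x ∈ A, x ∈ K → outcome false x = outcome true x) ∧
    ∀ x ∈ A, x ∉ K → outcome false x = outcome true (add x star) ∧ outcome true x = outcome false (add x star)

/-- `(A, K)` is evilly normal (for a closed set `A` of dicotic games and an evil kernel `K` of `A`). -/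
def EvillyNormal (A K : Set Game) : Prop :=
  ∀ x ∈ A, ∀ y ∈ A, (add x y ∉ K ↔ x ∉ K ∧ y ∉ K)

/-- `*2 = {0, * | 0, *}` -/
def star2 : Game := game [zero, star] [zero, star]

/-- `u = {0, * | 0}` -/
def gU : Game := game [zero, star] [zero]

/-- `d = {0 | 0, *}` -/
def gD : Game := game [zero] [zero, star]

/-- `G = {0, *2 | 0, u, d}` -/
def gG : Game := game [zero, star2] [zero, gU, gD]

/-! ### Basic lemmas -/

theorem opts_add (s : Bool) (x y : Game) :
    opts s (add x y) = (opts s x).map (fun a => add a y) ++ (opts s y).map (fun b => add x b) := by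
  rw [add]
  cases s
  · rw [opts_game_false]
    rw [List.attach_map_val (f := fun a => add a y), List.attach_map_val (f := fun b => add x b)]
  · rw [opts_game_true]
    rw [List.attach_map_val (f := fun a => add a y), List.attach_map_val (f := fun b => add x b)]

theorem mem_add {s : Bool} {x y z : Game} :
    z ∈ opts s (add x y) ↔ (∃ a ∈ opts s x, z = add a y) ∨ (∃ b ∈ opts s y, z = add x b) := by
  rw [opts_add, List.mem_append, List.mem_map, List.mem_map]
  constructor
  · rintro (⟨a, h, rfl⟩ | ⟨b, h, rfl⟩)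
    · exact Or.inl ⟨a, h, rfl⟩
    · exact Or.inr ⟨b, h, rfl⟩
  · rintro (⟨a, h, rfl⟩ | ⟨b, h, rfl⟩)
    · exact Or.inl ⟨a, h, rfl⟩
    · exact Or.inr ⟨b, h, rfl⟩

theorem ext_opts {x y : Game} (h : ∀ s, opts s x = opts s y) : x = y := by
  cases x with
  | mk m n l r =>
    cases y with
    | mk m' n' l' r' =>
      have h1 : List.ofFn l = List.ofFn l' := h true
      have h2 : List.ofFn r = List.ofFn r' := h false
      rw [List.ofFn_inj'] at h1 h2
      cases h1
      cases h2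
      rfl

@[simp] theorem opts_zero (s : Bool) : opts s zero = [] := by
  cases s
  · exact opts_game_false [] []
  · exact opts_game_true [] []

theorem zero_add_game (x : Game) : add zero x = x := by
  have key : ∀ n, ∀ x, rank x < n → add zero x = x := by
    intro n
    induction n with
    | zero => intro x h; omega
    | succ n ih =>
      intro x hx
      apply ext_opts
      intro s
      rw [opts_add, opts_zero, List.map_nil, List.nil_append]
      conv_rhs => rw [← List.map_id (opts s x)]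
      apply List.map_congr_left
      intro b hb
      have := rank_lt hb
      exact ih b (by omega)
  exact key _ x (Nat.lt_succ_self _)

theorem add_zero_game (x : Game) : add x zero = x := by
  have key : ∀ n, ∀ x, rank x < n → add x zero = x := by
    intro n
    induction n with
    | zero => intro x h; omega
    | succ n ih =>
      intro x hx
      apply ext_opts
      intro s
      rw [opts_add, opts_zero, List.map_nil, List.append_nil]
      conv_rhs => rw [← List.map_id (opts s x)]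
      apply List.map_congr_left
      intro b hb
      have := rank_lt hb
      exact ih b (by omega)
  exact key _ x (Nat.lt_succ_self _)

theorem wins_iff (mis s : Bool) (x : Game) :
    wins mis s x ↔ (mis = true ∧ opts s x = []) ∨ ∃ y ∈ opts s x, ¬ wins mis (!s) y := by
  rw [wins]
  constructor
  · rintro (h | ⟨y, h1, h2⟩)
    · exact Or.inl h
    · exact Or.inr ⟨y, h1, h2⟩
  · rintro (h | ⟨y, h1, h2⟩)
    · exact Or.inl h
    · exact Or.inr ⟨y, h1, h2⟩

theorem dicotic_iff (x : Game) :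
    Dicotic x ↔ (opts true x = [] ↔ opts false x = []) ∧ ∀ s, ∀ y ∈ opts s x, Dicotic y := by
  rw [Dicotic]

theorem same_iff (x y : Game) :
    Same x y ↔ ∀ s, (∀ a ∈ opts s x, ∃ b, b ∈ opts s y ∧ Same a b) ∧
      (∀ b, b ∈ opts s y → ∃ a ∈ opts s x, Same a b) := by
  rw [Same]
  constructor
  · intro h s
    refine ⟨(h s).1, fun b hb => ?_⟩
    obtain ⟨a, h1, h2⟩ := (h s).2 b hb
    exact ⟨a, h1, h2⟩
  · intro h s
    refine ⟨(h s).1, fun b hb => ?_⟩
    obtain ⟨a, h1, h2⟩ := (h s).2 b hb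
    exact ⟨a, h1, h2⟩

theorem outcome_eq {m m' : Bool} {x y : Game} (h : ∀ s, wins m s x ↔ wins m' s y) :
    outcome m x = outcome m' y := by
  have h1 := propext (h true)
  have h2 := propext (h false)
  unfold outcome
  rw [h1, h2]

/-! ### The sums `j * + a *2 + b u + c d + e G` -/

/-- the vectors `(j, a, b, c, e)` -/
@[ext] structure V where
  j : ℕ
  a : ℕ
  b : ℕ
  c : ℕ
  e : ℕ

/-- addition of vectors -/
def V.plus (v w : V) : V := ⟨v.j + w.j, v.a + w.a, v.b + w.b, v.c + w.c, v.e + w.e⟩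

/-- subtraction of vectors -/
def V.minus (v w : V) : V := ⟨v.j - w.j, v.a - w.a, v.b - w.b, v.c - w.c, v.e - w.e⟩

/-- the player `s` can move from the sum given by `v` to the sum given by `w` -/
def Mv (s : Bool) (v w : V) : Prop :=
  (v.j = w.j + 1 ∧ w.a = v.a ∧ w.b = v.b ∧ w.c = v.c ∧ w.e = v.e) ∨
  (w.j = v.j ∧ v.a = w.a + 1 ∧ w.b = v.b ∧ w.c = v.c ∧ w.e = v.e) ∨
  (w.j = v.j + 1 ∧ v.a = w.a + 1 ∧ w.b = v.b ∧ w.c = v.c ∧ w.e = v.e) ∨
  (w.j = v.j ∧ w.a = v.a ∧ v.b = w.b + 1 ∧ w.c = v.c ∧ w.e = v.e) ∨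
  (s = true ∧ w.j = v.j + 1 ∧ w.a = v.a ∧ v.b = w.b + 1 ∧ w.c = v.c ∧ w.e = v.e) ∨
  (w.j = v.j ∧ w.a = v.a ∧ w.b = v.b ∧ v.c = w.c + 1 ∧ w.e = v.e) ∨
  (s = false ∧ w.j = v.j + 1 ∧ w.a = v.a ∧ w.b = v.b ∧ v.c = w.c + 1 ∧ w.e = v.e) ∨
  (w.j = v.j ∧ w.a = v.a ∧ w.b = v.b ∧ w.c = v.c ∧ v.e = w.e + 1) ∨
  (s = true ∧ w.j = v.j ∧ w.a = v.a + 1 ∧ w.b = v.b ∧ w.c = v.c ∧ v.e = w.e + 1) ∨
  (s = false ∧ w.j = v.j ∧ w.a = v.a ∧ w.b = v.b + 1 ∧ w.c = v.c ∧ v.e = w.e + 1) ∨
  (s = false ∧ w.j = v.j ∧ w.a = v.a ∧ w.b = v.b ∧ w.c = v.c + 1 ∧ v.e = w.e + 1)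

theorem Mv_plus {s : Bool} {v w : V} (z : V) (h : Mv s v w) : Mv s (v.plus z) (w.plus z) := by
  unfold Mv V.plus
  unfold Mv at h
  dsimp only
  rcases h with h | h | h | h | ⟨hs, h⟩ | h | ⟨hs, h⟩ | h | ⟨hs, h⟩ | ⟨hs, h⟩ | ⟨hs, h⟩
  · exact Or.inl (by omega)
  · exact Or.inr (Or.inl (by omega))
  · exact Or.inr (Or.inr (Or.inl (by omega)))
  · exact Or.inr (Or.inr (Or.inr (Or.inl (by omega))))
  · exact Or.inr (Or.inr (Or.inr (Or.inr (Or.inl (⟨hs, by omega⟩)))))
  · exact Or.inr (Or.inr (Or.inr (Or.inr (Or.inr (Or.inl (by omega))))))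
  · exact Or.inr (Or.inr (Or.inr (Or.inr (Or.inr (Or.inr (Or.inl (⟨hs, by omega⟩)))))))
  · exact Or.inr (Or.inr (Or.inr (Or.inr (Or.inr (Or.inr (Or.inr (Or.inl (by omega))))))))
  · exact Or.inr (Or.inr (Or.inr (Or.inr (Or.inr (Or.inr (Or.inr (Or.inr (Or.inl (⟨hs, by omega⟩)))))))))
  · exact Or.inr (Or.inr (Or.inr (Or.inr (Or.inr (Or.inr (Or.inr (Or.inr (Or.inr (Or.inl (⟨hs, by omega⟩))))))))))
  · exact Or.inr (Or.inr (Or.inr (Or.inr (Or.inr (Or.inr (Or.inr (Or.inr (Or.inr (Or.inr (⟨hs, by omega⟩))))))))))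

theorem plus_comm (v w : V) : v.plus w = w.plus v := by
  unfold V.plus
  ext <;> dsimp only <;> omega

theorem Mv_split {s : Bool} {v w z : V} (h : Mv s (v.plus w) z) :
    (Mv s v (z.minus w) ∧ z = (z.minus w).plus w) ∨ (Mv s w (z.minus v) ∧ z = v.plus (z.minus v)) := by
  unfold Mv V.plus at h
  dsimp only at h
  rw [V.ext_iff, V.ext_iff]
  unfold Mv V.minus V.plus
  dsimp only
  rcases h with h | h | h | h | ⟨hs, h⟩ | h | ⟨hs, h⟩ | h | ⟨hs, h⟩ | ⟨hs, h⟩ | ⟨hs, h⟩
  · by_cases h1 : 1 ≤ v.j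
    · exact Or.inl ⟨Or.inl (by omega), by omega⟩
    · exact Or.inr ⟨Or.inl (by omega), by omega⟩
  · by_cases h1 : 1 ≤ v.a
    · exact Or.inl ⟨Or.inr (Or.inl (by omega)), by omega⟩
    · exact Or.inr ⟨Or.inr (Or.inl (by omega)), by omega⟩
  · by_cases h1 : 1 ≤ v.a
    · exact Or.inl ⟨Or.inr (Or.inr (Or.inl (by omega))), by omega⟩
    · exact Or.inr ⟨Or.inr (Or.inr (Or.inl (by omega))), by omega⟩
  · by_cases h1 : 1 ≤ v.b
    · exact Or.inl ⟨Or.inr (Or.inr (Or.inr (Or.inl (by omega)))), by omega⟩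
    · exact Or.inr ⟨Or.inr (Or.inr (Or.inr (Or.inl (by omega)))), by omega⟩
  · by_cases h1 : 1 ≤ v.b
    · exact Or.inl ⟨Or.inr (Or.inr (Or.inr (Or.inr (Or.inl (⟨hs, by omega⟩))))), by omega⟩
    · exact Or.inr ⟨Or.inr (Or.inr (Or.inr (Or.inr (Or.inl (⟨hs, by omega⟩))))), by omega⟩
  · by_cases h1 : 1 ≤ v.c
    · exact Or.inl ⟨Or.inr (Or.inr (Or.inr (Or.inr (Or.inr (Or.inl (by omega)))))), by omega⟩
    · exact Or.inr ⟨Or.inr (Or.inr (Or.inr (Or.inr (Or.inr (Or.inl (by omega)))))), by omega⟩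
  · by_cases h1 : 1 ≤ v.c
    · exact Or.inl ⟨Or.inr (Or.inr (Or.inr (Or.inr (Or.inr (Or.inr (Or.inl (⟨hs, by omega⟩))))))), by omega⟩
    · exact Or.inr ⟨Or.inr (Or.inr (Or.inr (Or.inr (Or.inr (Or.inr (Or.inl (⟨hs, by omega⟩))))))), by omega⟩
  · by_cases h1 : 1 ≤ v.e
    · exact Or.inl ⟨Or.inr (Or.inr (Or.inr (Or.inr (Or.inr (Or.inr (Or.inr (Or.inl (by omega)))))))), by omega⟩
    · exact Or.inr ⟨Or.inr (Or.inr (Or.inr (Or.inr (Or.inr (Or.inr (Or.inr (Or.inl (by omega)))))))), by omega⟩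
  · by_cases h1 : 1 ≤ v.e
    · exact Or.inl ⟨Or.inr (Or.inr (Or.inr (Or.inr (Or.inr (Or.inr (Or.inr (Or.inr (Or.inl (⟨hs, by omega⟩))))))))), by omega⟩
    · exact Or.inr ⟨Or.inr (Or.inr (Or.inr (Or.inr (Or.inr (Or.inr (Or.inr (Or.inr (Or.inl (⟨hs, by omega⟩))))))))), by omega⟩
  · by_cases h1 : 1 ≤ v.e
    · exact Or.inl ⟨Or.inr (Or.inr (Or.inr (Or.inr (Or.inr (Or.inr (Or.inr (Or.inr (Or.inr (Or.inl (⟨hs, by omega⟩)))))))))), by omega⟩
    · exact Or.inr ⟨Or.inr (Or.inr (Or.inr (Or.inr (Or.inr (Or.inr (Or.inr (Or.inr (Or.inr (Or.inl (⟨hs, by omega⟩)))))))))), by omega⟩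
  · by_cases h1 : 1 ≤ v.e
    · exact Or.inl ⟨Or.inr (Or.inr (Or.inr (Or.inr (Or.inr (Or.inr (Or.inr (Or.inr (Or.inr (Or.inr (⟨hs, by omega⟩)))))))))), by omega⟩
    · exact Or.inr ⟨Or.inr (Or.inr (Or.inr (Or.inr (Or.inr (Or.inr (Or.inr (Or.inr (Or.inr (Or.inr (⟨hs, by omega⟩)))))))))), by omega⟩

/-- `x` is the sum given by `v`, up to the order and the repetition of options -/
def T (v : V) (x : Game) : Prop :=
  ∀ s, (∀ y, ∀ _ : y ∈ opts s x, ∃ w, Mv s v w ∧ T w y) ∧
    (∀ w, Mv s v w → ∃ y, ∃ _ : y ∈ opts s x, T w y)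
termination_by rank x
decreasing_by all_goals exact rank_lt (by assumption)

theorem T_iff (v : V) (x : Game) :
    T v x ↔ ∀ s, (∀ y ∈ opts s x, ∃ w, Mv s v w ∧ T w y) ∧
      (∀ w, Mv s v w → ∃ y ∈ opts s x, T w y) := by
  rw [T]
  constructor
  · intro h s
    refine ⟨(h s).1, fun w hm => ?_⟩
    obtain ⟨a, h1, h2⟩ := (h s).2 w hm
    exact ⟨a, h1, h2⟩
  · intro h s
    refine ⟨(h s).1, fun w hm => ?_⟩
    obtain ⟨a, h1, h2⟩ := (h s).2 w hm
    exact ⟨a, h1, h2⟩

theorem T_opt {v : V} {x y : Game} {s : Bool} (h : T v x) (hy : y ∈ opts s x) :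
    ∃ w, Mv s v w ∧ T w y := ((T_iff _ _).1 h s).1 y hy

theorem T_mv {v w : V} {x : Game} {s : Bool} (h : T v x) (hm : Mv s v w) :
    ∃ y ∈ opts s x, T w y := ((T_iff _ _).1 h s).2 w hm

theorem T_nil {v : V} {x : Game} (s : Bool) (h : T v x) :
    opts s x = [] ↔ v.j + v.a + v.b + v.c + v.e = 0 := by
  constructor
  · intro hn
    by_contra hne
    have : ∃ w, Mv s v w := by
      by_cases h1 : 1 ≤ v.j
      · exact ⟨⟨v.j - 1, v.a, v.b, v.c, v.e⟩, by unfold Mv; dsimp only; omega⟩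
      · by_cases h2 : 1 ≤ v.a
        · exact ⟨⟨v.j, v.a - 1, v.b, v.c, v.e⟩, by unfold Mv; dsimp only; omega⟩
        · by_cases h3 : 1 ≤ v.b
          · exact ⟨⟨v.j, v.a, v.b - 1, v.c, v.e⟩, by unfold Mv; dsimp only; omega⟩
          · by_cases h4 : 1 ≤ v.c
            · exact ⟨⟨v.j, v.a, v.b, v.c - 1, v.e⟩, by unfold Mv; dsimp only; omega⟩
            · exact ⟨⟨v.j, v.a, v.b, v.c, v.e - 1⟩, by unfold Mv; dsimp only; omega⟩
    obtain ⟨w, hm⟩ := this
    obtain ⟨y, hy, _⟩ := T_mv h hm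
    rw [hn] at hy
    exact absurd hy List.not_mem_nil
  · intro h0
    rw [List.eq_nil_iff_forall_not_mem]
    intro y hy
    obtain ⟨w, hm, _⟩ := T_opt h hy
    unfold Mv at hm
    omega

theorem T_add {v w : V} : ∀ {x y : Game}, T v x → T w y → T (v.plus w) (add x y) := by
  have key : ∀ n, ∀ v w : V, ∀ x y : Game, rank x + rank y < n → T v x →
      T w y → T (v.plus w) (add x y) := by
    intro n
    induction n with
    | zero => intro v w x y h; omega
    | succ n ih =>
      intro v w x y hn hx hy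
      rw [T_iff]
      intro s
      constructor
      · intro z hz
        rcases mem_add.1 hz with ⟨a, ha, rfl⟩ | ⟨b, hb, rfl⟩
        · obtain ⟨v', h1, h2⟩ := T_opt hx ha
          have := rank_lt ha
          exact ⟨v'.plus w, Mv_plus _ h1, ih _ _ a y (by omega) h2 hy⟩
        · obtain ⟨w', h1, h2⟩ := T_opt hy hb
          have := rank_lt hb
          refine ⟨v.plus w', ?_, ih _ _ x b (by omega) hx h2⟩
          rw [plus_comm v w, plus_comm v w']
          exact Mv_plus _ h1
      · intro z hm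
        rcases Mv_split hm with ⟨h1, h3⟩ | ⟨h1, h3⟩
        · obtain ⟨a, ha, h2⟩ := T_mv hx h1
          have := rank_lt ha
          rw [h3]
          exact ⟨add a y, mem_add.2 (Or.inl ⟨a, ha, rfl⟩), ih _ _ a y (by omega) h2 hy⟩
        · obtain ⟨b, hb, h2⟩ := T_mv hy h1
          have := rank_lt hb
          rw [h3]
          exact ⟨add x b, mem_add.2 (Or.inr ⟨b, hb, rfl⟩), ih _ _ x b (by omega) hx h2⟩
  intro x y hx hy
  exact key _ v w x y (Nat.lt_succ_self _) hx hy

theorem T_same {v : V} : ∀ {x y : Game}, T v x → Same x y → T v y := by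
  have key : ∀ n, ∀ v : V, ∀ x y : Game, rank x < n → T v x → Same x y → T v y := by
    intro n
    induction n with
    | zero => intro v x y h; omega
    | succ n ih =>
      intro v x y hn hx hxy
      rw [same_iff] at hxy
      rw [T_iff]
      intro s
      constructor
      · intro b hb
        obtain ⟨a, ha, hab⟩ := (hxy s).2 b hb
        obtain ⟨w, h1, h2⟩ := T_opt hx ha
        have := rank_lt ha
        exact ⟨w, h1, ih _ a b (by omega) h2 hab⟩
      · intro w h1
        obtain ⟨a, ha, h2⟩ := T_mv hx h1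
        obtain ⟨b, hb, hab⟩ := (hxy s).1 a ha
        have := rank_lt ha
        exact ⟨b, hb, ih _ a b (by omega) h2 hab⟩
  intro x y hx hxy
  exact key _ v x y (Nat.lt_succ_self _) hx hxy

theorem T_dicotic {v : V} : ∀ {x : Game}, T v x → Dicotic x := by
  have key : ∀ n, ∀ v : V, ∀ x : Game, rank x < n → T v x → Dicotic x := by
    intro n
    induction n with
    | zero => intro v x h; omega
    | succ n ih =>
      intro v x hn hx
      rw [dicotic_iff]
      refine ⟨by rw [T_nil true hx, T_nil false hx], fun s y hy => ?_⟩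
      obtain ⟨w, _, h2⟩ := T_opt hx hy
      have := rank_lt hy
      exact ih _ y (by omega) h2
  intro x hx
  exact key _ v x (Nat.lt_succ_self _) hx

/-! ### The outcomes of all sums -/

/-- `2 (b - c - e) - (j mod 2)` -/
def tt (v : V) : ℤ := 2 * ((v.b : ℤ) - v.c - v.e) - ((v.j % 2 : ℕ) : ℤ)

/-- Left, moving first, wins in normal play -/
def FNL (t : ℤ) (a e : ℕ) : Prop :=
  (e = 0 ∧ a % 2 = 0 ∧ -2 ≤ t ∧ t ≠ 0) ∨ (e = 0 ∧ a % 2 = 1 ∧ -1 ≤ t) ∨ (1 ≤ e ∧ -2 ≤ t)

/-- Right, moving first, wins in normal play -/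
def FNR (t : ℤ) (a e : ℕ) : Prop :=
  (e = 0 ∧ a % 2 = 0 ∧ (t ≤ -1 ∨ t = 2)) ∨ (e = 0 ∧ a % 2 = 1 ∧ t ≤ 0) ∨
  (1 ≤ e ∧ (t ≤ -1 ∨ (t = 0 ∧ e = 1 ∧ a % 2 = 0)))

/-- Left, moving first, wins in misère play -/
def FML (t : ℤ) (a e : ℕ) : Prop :=
  (e = 0 ∧ a = 0 ∧ (0 ≤ t ∨ t = -3)) ∨ (e = 0 ∧ 2 ≤ a ∧ a % 2 = 0 ∧ -2 ≤ t ∧ t ≠ 0) ∨
  (e = 0 ∧ a % 2 = 1 ∧ -1 ≤ t) ∨ (e = 1 ∧ a = 0 ∧ (-1 ≤ t ∨ t = -3)) ∨ (1 ≤ e ∧ 2 ≤ a + e ∧ -2 ≤ t)

/-- Right, moving first, wins in misère play -/
def FMR (t : ℤ) (a e : ℕ) : Prop :=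
  (e = 0 ∧ a = 0 ∧ (t ≤ -2 ∨ t = 0 ∨ t = 1)) ∨ (e = 0 ∧ 2 ≤ a ∧ a % 2 = 0 ∧ (t ≤ -1 ∨ t = 2)) ∨
  (e = 0 ∧ a % 2 = 1 ∧ t ≤ 0) ∨ (1 ≤ e ∧ (t ≤ -1 ∨ (t = 0 ∧ e = 1 ∧ a % 2 = 0)))

theorem FNL_of {v : V} (h : FNL (tt v) v.a v.e) : ∃ w, Mv true v w ∧ ¬ FNR (tt w) w.a w.e := by
  obtain ⟨t, ht⟩ : ∃ t : ℤ, t = tt v := ⟨_, rfl⟩
  rw [← ht] at h
  unfold tt at ht
  unfold FNL at h
  by_cases hc1 : v.e = 0
  · by_cases hc2 : v.a % 2 = 0
    · replace h : -2 ≤ t ∧ t ≠ 0 := by clear ht; omega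
      by_cases hc3 : t = 1 ∨ t = 4
      · refine ⟨⟨v.j + 1, v.a, v.b - 1, v.c, v.e⟩, Or.inr (Or.inr (Or.inr (Or.inr (Or.inl (⟨rfl, by dsimp only; omega⟩))))), ?_⟩
        obtain ⟨t', ht'⟩ : ∃ t' : ℤ, t' = tt ⟨v.j + 1, v.a, v.b - 1, v.c, v.e⟩ := ⟨_, rfl⟩
        rw [← ht']
        unfold tt at ht'
        dsimp only at ht' ⊢
        have h2 : (t % 2 = 1 ∧ t' = t - 1) ∨ (t % 2 = 0 ∧ t' = t - 3) := by omega
        clear ht ht'
        unfold FNR
        omega
      · by_cases hc4 : 2 ≤ t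
        · refine ⟨⟨v.j, v.a, v.b - 1, v.c, v.e⟩, Or.inr (Or.inr (Or.inr (Or.inl (by dsimp only; omega)))), ?_⟩
          obtain ⟨t', ht'⟩ : ∃ t' : ℤ, t' = tt ⟨v.j, v.a, v.b - 1, v.c, v.e⟩ := ⟨_, rfl⟩
          rw [← ht']
          unfold tt at ht'
          dsimp only at ht' ⊢
          have h2 : t' = t - 2 := by omega
          clear ht ht'
          unfold FNR
          omega
        · by_cases hc5 : t = -1
          · refine ⟨⟨v.j - 1, v.a, v.b, v.c, v.e⟩, Or.inl (by dsimp only; omega), ?_⟩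
            obtain ⟨t', ht'⟩ : ∃ t' : ℤ, t' = tt ⟨v.j - 1, v.a, v.b, v.c, v.e⟩ := ⟨_, rfl⟩
            rw [← ht']
            unfold tt at ht'
            dsimp only at ht' ⊢
            have h2 : (t % 2 = 1 ∧ t' = t + 1) ∨ (t % 2 = 0 ∧ t' = t - 1) := by omega
            clear ht ht'
            unfold FNR
            omega
          · refine ⟨⟨v.j, v.a, v.b, v.c - 1, v.e⟩, Or.inr (Or.inr (Or.inr (Or.inr (Or.inr (Or.inl (by dsimp only; omega)))))), ?_⟩
            obtain ⟨t', ht'⟩ : ∃ t' : ℤ, t' = tt ⟨v.j, v.a, v.b, v.c - 1, v.e⟩ := ⟨_, rfl⟩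
            rw [← ht']
            unfold tt at ht'
            dsimp only at ht' ⊢
            have h2 : t' = t + 2 := by omega
            clear ht ht'
            unfold FNR
            omega
    · replace h : -1 ≤ t := by clear ht; omega
      by_cases hc3 : t = 2 ∨ t = -1
      · refine ⟨⟨v.j + 1, v.a - 1, v.b, v.c, v.e⟩, Or.inr (Or.inr (Or.inl (by dsimp only; omega))), ?_⟩
        obtain ⟨t', ht'⟩ : ∃ t' : ℤ, t' = tt ⟨v.j + 1, v.a - 1, v.b, v.c, v.e⟩ := ⟨_, rfl⟩
        rw [← ht']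
        unfold tt at ht'
        dsimp only at ht' ⊢
        have h2 : (t % 2 = 1 ∧ t' = t + 1) ∨ (t % 2 = 0 ∧ t' = t - 1) := by omega
        clear ht ht'
        unfold FNR
        omega
      · refine ⟨⟨v.j, v.a - 1, v.b, v.c, v.e⟩, Or.inr (Or.inl (by dsimp only; omega)), ?_⟩
        obtain ⟨t', ht'⟩ : ∃ t' : ℤ, t' = tt ⟨v.j, v.a - 1, v.b, v.c, v.e⟩ := ⟨_, rfl⟩
        rw [← ht']
        unfold tt at ht'
        dsimp only at ht' ⊢
        have h2 : t' = t + 0 := by omega
        clear ht ht'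
        unfold FNR
        omega
  · replace h : -2 ≤ t := by clear ht; omega
    by_cases hc2 : v.e = 1
    · by_cases hc3 : (v.a % 2 = 0 ∧ t = 0) ∨ (v.a % 2 = 1 ∧ t = -2)
      · refine ⟨⟨v.j, v.a + 1, v.b, v.c, v.e - 1⟩, Or.inr (Or.inr (Or.inr (Or.inr (Or.inr (Or.inr (Or.inr (Or.inr (Or.inl (⟨rfl, by dsimp only; omega⟩))))))))), ?_⟩
        obtain ⟨t', ht'⟩ : ∃ t' : ℤ, t' = tt ⟨v.j, v.a + 1, v.b, v.c, v.e - 1⟩ := ⟨_, rfl⟩
        rw [← ht']
        unfold tt at ht'
        dsimp only at ht' ⊢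
        have h2 : t' = t + 2 := by omega
        clear ht ht'
        unfold FNR
        omega
      · refine ⟨⟨v.j, v.a, v.b, v.c, v.e - 1⟩, Or.inr (Or.inr (Or.inr (Or.inr (Or.inr (Or.inr (Or.inr (Or.inl (by dsimp only; omega)))))))), ?_⟩
        obtain ⟨t', ht'⟩ : ∃ t' : ℤ, t' = tt ⟨v.j, v.a, v.b, v.c, v.e - 1⟩ := ⟨_, rfl⟩
        rw [← ht']
        unfold tt at ht'
        dsimp only at ht' ⊢
        have h2 : t' = t + 2 := by omega
        clear ht ht'
        unfold FNR
        omega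
    · by_cases hc3 : v.a % 2 = 0
      · refine ⟨⟨v.j, v.a + 1, v.b, v.c, v.e - 1⟩, Or.inr (Or.inr (Or.inr (Or.inr (Or.inr (Or.inr (Or.inr (Or.inr (Or.inl (⟨rfl, by dsimp only; omega⟩))))))))), ?_⟩
        obtain ⟨t', ht'⟩ : ∃ t' : ℤ, t' = tt ⟨v.j, v.a + 1, v.b, v.c, v.e - 1⟩ := ⟨_, rfl⟩
        rw [← ht']
        unfold tt at ht'
        dsimp only at ht' ⊢
        have h2 : t' = t + 2 := by omega
        clear ht ht'
        unfold FNR
        omega
      · refine ⟨⟨v.j, v.a, v.b, v.c, v.e - 1⟩, Or.inr (Or.inr (Or.inr (Or.inr (Or.inr (Or.inr (Or.inr (Or.inl (by dsimp only; omega)))))))), ?_⟩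
        obtain ⟨t', ht'⟩ : ∃ t' : ℤ, t' = tt ⟨v.j, v.a, v.b, v.c, v.e - 1⟩ := ⟨_, rfl⟩
        rw [← ht']
        unfold tt at ht'
        dsimp only at ht' ⊢
        have h2 : t' = t + 2 := by omega
        clear ht ht'
        unfold FNR
        omega

theorem FNR_of {v : V} (h : FNR (tt v) v.a v.e) : ∃ w, Mv false v w ∧ ¬ FNL (tt w) w.a w.e := by
  obtain ⟨t, ht⟩ : ∃ t : ℤ, t = tt v := ⟨_, rfl⟩
  rw [← ht] at h
  unfold tt at ht
  unfold FNR at h
  by_cases hc1 : v.e = 0
  · by_cases hc2 : v.a % 2 = 0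
    · replace h : t ≤ -1 ∨ t = 2 := by clear ht; omega
      by_cases hc3 : t = 2
      · refine ⟨⟨v.j, v.a, v.b - 1, v.c, v.e⟩, Or.inr (Or.inr (Or.inr (Or.inl (by dsimp only; omega)))), ?_⟩
        obtain ⟨t', ht'⟩ : ∃ t' : ℤ, t' = tt ⟨v.j, v.a, v.b - 1, v.c, v.e⟩ := ⟨_, rfl⟩
        rw [← ht']
        unfold tt at ht'
        dsimp only at ht' ⊢
        have h2 : t' = t - 2 := by omega
        clear ht ht'
        unfold FNL
        omega
      · by_cases hc4 : t = -1
        · refine ⟨⟨v.j - 1, v.a, v.b, v.c, v.e⟩, Or.inl (by dsimp only; omega), ?_⟩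
          obtain ⟨t', ht'⟩ : ∃ t' : ℤ, t' = tt ⟨v.j - 1, v.a, v.b, v.c, v.e⟩ := ⟨_, rfl⟩
          rw [← ht']
          unfold tt at ht'
          dsimp only at ht' ⊢
          have h2 : (t % 2 = 1 ∧ t' = t + 1) ∨ (t % 2 = 0 ∧ t' = t - 1) := by omega
          clear ht ht'
          unfold FNL
          omega
        · by_cases hc5 : t = -3 ∨ t = -4
          · refine ⟨⟨v.j + 1, v.a, v.b, v.c - 1, v.e⟩, Or.inr (Or.inr (Or.inr (Or.inr (Or.inr (Or.inr (Or.inl (⟨rfl, by dsimp only; omega⟩))))))), ?_⟩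
            obtain ⟨t', ht'⟩ : ∃ t' : ℤ, t' = tt ⟨v.j + 1, v.a, v.b, v.c - 1, v.e⟩ := ⟨_, rfl⟩
            rw [← ht']
            unfold tt at ht'
            dsimp only at ht' ⊢
            have h2 : (t % 2 = 1 ∧ t' = t + 3) ∨ (t % 2 = 0 ∧ t' = t + 1) := by omega
            clear ht ht'
            unfold FNL
            omega
          · refine ⟨⟨v.j, v.a, v.b, v.c - 1, v.e⟩, Or.inr (Or.inr (Or.inr (Or.inr (Or.inr (Or.inl (by dsimp only; omega)))))), ?_⟩
            obtain ⟨t', ht'⟩ : ∃ t' : ℤ, t' = tt ⟨v.j, v.a, v.b, v.c - 1, v.e⟩ := ⟨_, rfl⟩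
            rw [← ht']
            unfold tt at ht'
            dsimp only at ht' ⊢
            have h2 : t' = t + 2 := by omega
            clear ht ht'
            unfold FNL
            omega
    · replace h : t ≤ 0 := by clear ht; omega
      by_cases hc3 : t = -1 ∨ t = -2
      · refine ⟨⟨v.j + 1, v.a - 1, v.b, v.c, v.e⟩, Or.inr (Or.inr (Or.inl (by dsimp only; omega))), ?_⟩
        obtain ⟨t', ht'⟩ : ∃ t' : ℤ, t' = tt ⟨v.j + 1, v.a - 1, v.b, v.c, v.e⟩ := ⟨_, rfl⟩
        rw [← ht']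
        unfold tt at ht'
        dsimp only at ht' ⊢
        have h2 : (t % 2 = 1 ∧ t' = t + 1) ∨ (t % 2 = 0 ∧ t' = t - 1) := by omega
        clear ht ht'
        unfold FNL
        omega
      · refine ⟨⟨v.j, v.a - 1, v.b, v.c, v.e⟩, Or.inr (Or.inl (by dsimp only; omega)), ?_⟩
        obtain ⟨t', ht'⟩ : ∃ t' : ℤ, t' = tt ⟨v.j, v.a - 1, v.b, v.c, v.e⟩ := ⟨_, rfl⟩
        rw [← ht']
        unfold tt at ht'
        dsimp only at ht' ⊢
        have h2 : t' = t + 0 := by omega
        clear ht ht'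
        unfold FNL
        omega
  · replace h : t ≤ -1 ∨ (t = 0 ∧ v.e = 1 ∧ v.a % 2 = 0) := by clear ht; omega
    by_cases hc2 : t = -1
    · refine ⟨⟨v.j, v.a, v.b - 1, v.c, v.e⟩, Or.inr (Or.inr (Or.inr (Or.inl (by dsimp only; omega)))), ?_⟩
      obtain ⟨t', ht'⟩ : ∃ t' : ℤ, t' = tt ⟨v.j, v.a, v.b - 1, v.c, v.e⟩ := ⟨_, rfl⟩
      rw [← ht']
      unfold tt at ht'
      dsimp only at ht' ⊢
      have h2 : t' = t - 2 := by omega
      clear ht ht'
      unfold FNL
      omega
    · by_cases hc3 : v.e = 1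
      · by_cases hc4 : t = -2 ∧ v.a % 2 = 0
        · refine ⟨⟨v.j, v.a, v.b, v.c, v.e - 1⟩, Or.inr (Or.inr (Or.inr (Or.inr (Or.inr (Or.inr (Or.inr (Or.inl (by dsimp only; omega)))))))), ?_⟩
          obtain ⟨t', ht'⟩ : ∃ t' : ℤ, t' = tt ⟨v.j, v.a, v.b, v.c, v.e - 1⟩ := ⟨_, rfl⟩
          rw [← ht']
          unfold tt at ht'
          dsimp only at ht' ⊢
          have h2 : t' = t + 2 := by omega
          clear ht ht'
          unfold FNL
          omega
        · refine ⟨⟨v.j, v.a, v.b, v.c + 1, v.e - 1⟩, Or.inr (Or.inr (Or.inr (Or.inr (Or.inr (Or.inr (Or.inr (Or.inr (Or.inr (Or.inr (⟨rfl, by dsimp only; omega⟩)))))))))), ?_⟩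
          obtain ⟨t', ht'⟩ : ∃ t' : ℤ, t' = tt ⟨v.j, v.a, v.b, v.c + 1, v.e - 1⟩ := ⟨_, rfl⟩
          rw [← ht']
          unfold tt at ht'
          dsimp only at ht' ⊢
          have h2 : t' = t + 0 := by omega
          clear ht ht'
          unfold FNL
          omega
      · by_cases hc4 : t = -2
        · refine ⟨⟨v.j, v.a, v.b - 1, v.c, v.e⟩, Or.inr (Or.inr (Or.inr (Or.inl (by dsimp only; omega)))), ?_⟩
          obtain ⟨t', ht'⟩ : ∃ t' : ℤ, t' = tt ⟨v.j, v.a, v.b - 1, v.c, v.e⟩ := ⟨_, rfl⟩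
          rw [← ht']
          unfold tt at ht'
          dsimp only at ht' ⊢
          have h2 : t' = t - 2 := by omega
          clear ht ht'
          unfold FNL
          omega
        · refine ⟨⟨v.j, v.a, v.b, v.c + 1, v.e - 1⟩, Or.inr (Or.inr (Or.inr (Or.inr (Or.inr (Or.inr (Or.inr (Or.inr (Or.inr (Or.inr (⟨rfl, by dsimp only; omega⟩)))))))))), ?_⟩
          obtain ⟨t', ht'⟩ : ∃ t' : ℤ, t' = tt ⟨v.j, v.a, v.b, v.c + 1, v.e - 1⟩ := ⟨_, rfl⟩
          rw [← ht']
          unfold tt at ht'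
          dsimp only at ht' ⊢
          have h2 : t' = t + 0 := by omega
          clear ht ht'
          unfold FNL
          omega

theorem FML_of {v : V} (h : FML (tt v) v.a v.e) : v.j + v.a + v.b + v.c + v.e = 0 ∨ ∃ w, Mv true v w ∧ ¬ FMR (tt w) w.a w.e := by
  obtain ⟨t, ht⟩ : ∃ t : ℤ, t = tt v := ⟨_, rfl⟩
  rw [← ht] at h
  unfold tt at ht
  unfold FML at h
  by_cases hc1 : v.e = 0
  · by_cases hc2 : v.a = 0
    · replace h : 0 ≤ t ∨ t = -3 := by clear ht; omega
      by_cases hc3 : t = 0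
      · by_cases hc4 : v.j = 0
        · by_cases hc5 : v.b = 0
          · exact Or.inl (by omega)
          · refine Or.inr ⟨⟨v.j, v.a, v.b, v.c - 1, v.e⟩, Or.inr (Or.inr (Or.inr (Or.inr (Or.inr (Or.inl (by dsimp only; omega)))))), ?_⟩
            obtain ⟨t', ht'⟩ : ∃ t' : ℤ, t' = tt ⟨v.j, v.a, v.b, v.c - 1, v.e⟩ := ⟨_, rfl⟩
            rw [← ht']
            unfold tt at ht'
            dsimp only at ht' ⊢
            have h2 : t' = t + 2 := by omega
            clear ht ht'
            unfold FMR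
            omega
        · refine Or.inr ⟨⟨v.j - 1, v.a, v.b, v.c, v.e⟩, Or.inl (by dsimp only; omega), ?_⟩
          obtain ⟨t', ht'⟩ : ∃ t' : ℤ, t' = tt ⟨v.j - 1, v.a, v.b, v.c, v.e⟩ := ⟨_, rfl⟩
          rw [← ht']
          unfold tt at ht'
          dsimp only at ht' ⊢
          have h2 : (t % 2 = 1 ∧ t' = t + 1) ∨ (t % 2 = 0 ∧ t' = t - 1) := by omega
          clear ht ht'
          unfold FMR
          omega
      · by_cases hc4 : t = -3
        · refine Or.inr ⟨⟨v.j, v.a, v.b, v.c - 1, v.e⟩, Or.inr (Or.inr (Or.inr (Or.inr (Or.inr (Or.inl (by dsimp only; omega)))))), ?_⟩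
          obtain ⟨t', ht'⟩ : ∃ t' : ℤ, t' = tt ⟨v.j, v.a, v.b, v.c - 1, v.e⟩ := ⟨_, rfl⟩
          rw [← ht']
          unfold tt at ht'
          dsimp only at ht' ⊢
          have h2 : t' = t + 2 := by omega
          clear ht ht'
          unfold FMR
          omega
        · by_cases hc5 : t = 2 ∨ t = 3
          · refine Or.inr ⟨⟨v.j + 1, v.a, v.b - 1, v.c, v.e⟩, Or.inr (Or.inr (Or.inr (Or.inr (Or.inl (⟨rfl, by dsimp only; omega⟩))))), ?_⟩
            obtain ⟨t', ht'⟩ : ∃ t' : ℤ, t' = tt ⟨v.j + 1, v.a, v.b - 1, v.c, v.e⟩ := ⟨_, rfl⟩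
            rw [← ht']
            unfold tt at ht'
            dsimp only at ht' ⊢
            have h2 : (t % 2 = 1 ∧ t' = t - 1) ∨ (t % 2 = 0 ∧ t' = t - 3) := by omega
            clear ht ht'
            unfold FMR
            omega
          · refine Or.inr ⟨⟨v.j, v.a, v.b - 1, v.c, v.e⟩, Or.inr (Or.inr (Or.inr (Or.inl (by dsimp only; omega)))), ?_⟩
            obtain ⟨t', ht'⟩ : ∃ t' : ℤ, t' = tt ⟨v.j, v.a, v.b - 1, v.c, v.e⟩ := ⟨_, rfl⟩
            rw [← ht']
            unfold tt at ht'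
            dsimp only at ht' ⊢
            have h2 : t' = t - 2 := by omega
            clear ht ht'
            unfold FMR
            omega
    · by_cases hc3 : v.a % 2 = 0
      · replace h : -2 ≤ t ∧ t ≠ 0 := by clear ht; omega
        by_cases hc4 : t = 1 ∨ t = 4
        · refine Or.inr ⟨⟨v.j + 1, v.a, v.b - 1, v.c, v.e⟩, Or.inr (Or.inr (Or.inr (Or.inr (Or.inl (⟨rfl, by dsimp only; omega⟩))))), ?_⟩
          obtain ⟨t', ht'⟩ : ∃ t' : ℤ, t' = tt ⟨v.j + 1, v.a, v.b - 1, v.c, v.e⟩ := ⟨_, rfl⟩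
          rw [← ht']
          unfold tt at ht'
          dsimp only at ht' ⊢
          have h2 : (t % 2 = 1 ∧ t' = t - 1) ∨ (t % 2 = 0 ∧ t' = t - 3) := by omega
          clear ht ht'
          unfold FMR
          omega
        · by_cases hc5 : 2 ≤ t
          · refine Or.inr ⟨⟨v.j, v.a, v.b - 1, v.c, v.e⟩, Or.inr (Or.inr (Or.inr (Or.inl (by dsimp only; omega)))), ?_⟩
            obtain ⟨t', ht'⟩ : ∃ t' : ℤ, t' = tt ⟨v.j, v.a, v.b - 1, v.c, v.e⟩ := ⟨_, rfl⟩
            rw [← ht']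
            unfold tt at ht'
            dsimp only at ht' ⊢
            have h2 : t' = t - 2 := by omega
            clear ht ht'
            unfold FMR
            omega
          · by_cases hc6 : t = -1
            · refine Or.inr ⟨⟨v.j - 1, v.a, v.b, v.c, v.e⟩, Or.inl (by dsimp only; omega), ?_⟩
              obtain ⟨t', ht'⟩ : ∃ t' : ℤ, t' = tt ⟨v.j - 1, v.a, v.b, v.c, v.e⟩ := ⟨_, rfl⟩
              rw [← ht']
              unfold tt at ht'
              dsimp only at ht' ⊢
              have h2 : (t % 2 = 1 ∧ t' = t + 1) ∨ (t % 2 = 0 ∧ t' = t - 1) := by omega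
              clear ht ht'
              unfold FMR
              omega
            · refine Or.inr ⟨⟨v.j, v.a, v.b, v.c - 1, v.e⟩, Or.inr (Or.inr (Or.inr (Or.inr (Or.inr (Or.inl (by dsimp only; omega)))))), ?_⟩
              obtain ⟨t', ht'⟩ : ∃ t' : ℤ, t' = tt ⟨v.j, v.a, v.b, v.c - 1, v.e⟩ := ⟨_, rfl⟩
              rw [← ht']
              unfold tt at ht'
              dsimp only at ht' ⊢
              have h2 : t' = t + 2 := by omega
              clear ht ht'
              unfold FMR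
              omega
      · replace h : -1 ≤ t := by clear ht; omega
        by_cases hc4 : v.a = 1
        · by_cases hc5 : t = 0 ∨ t = 1
          · refine Or.inr ⟨⟨v.j + 1, v.a - 1, v.b, v.c, v.e⟩, Or.inr (Or.inr (Or.inl (by dsimp only; omega))), ?_⟩
            obtain ⟨t', ht'⟩ : ∃ t' : ℤ, t' = tt ⟨v.j + 1, v.a - 1, v.b, v.c, v.e⟩ := ⟨_, rfl⟩
            rw [← ht']
            unfold tt at ht'
            dsimp only at ht' ⊢
            have h2 : (t % 2 = 1 ∧ t' = t + 1) ∨ (t % 2 = 0 ∧ t' = t - 1) := by omega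
            clear ht ht'
            unfold FMR
            omega
          · refine Or.inr ⟨⟨v.j, v.a - 1, v.b, v.c, v.e⟩, Or.inr (Or.inl (by dsimp only; omega)), ?_⟩
            obtain ⟨t', ht'⟩ : ∃ t' : ℤ, t' = tt ⟨v.j, v.a - 1, v.b, v.c, v.e⟩ := ⟨_, rfl⟩
            rw [← ht']
            unfold tt at ht'
            dsimp only at ht' ⊢
            have h2 : t' = t + 0 := by omega
            clear ht ht'
            unfold FMR
            omega
        · by_cases hc5 : t = 2 ∨ t = -1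
          · refine Or.inr ⟨⟨v.j + 1, v.a - 1, v.b, v.c, v.e⟩, Or.inr (Or.inr (Or.inl (by dsimp only; omega))), ?_⟩
            obtain ⟨t', ht'⟩ : ∃ t' : ℤ, t' = tt ⟨v.j + 1, v.a - 1, v.b, v.c, v.e⟩ := ⟨_, rfl⟩
            rw [← ht']
            unfold tt at ht'
            dsimp only at ht' ⊢
            have h2 : (t % 2 = 1 ∧ t' = t + 1) ∨ (t % 2 = 0 ∧ t' = t - 1) := by omega
            clear ht ht'
            unfold FMR
            omega
          · refine Or.inr ⟨⟨v.j, v.a - 1, v.b, v.c, v.e⟩, Or.inr (Or.inl (by dsimp only; omega)), ?_⟩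
            obtain ⟨t', ht'⟩ : ∃ t' : ℤ, t' = tt ⟨v.j, v.a - 1, v.b, v.c, v.e⟩ := ⟨_, rfl⟩
            rw [← ht']
            unfold tt at ht'
            dsimp only at ht' ⊢
            have h2 : t' = t + 0 := by omega
            clear ht ht'
            unfold FMR
            omega
  · by_cases hc2 : v.e = 1
    · by_cases hc3 : v.a = 0
      · replace h : -1 ≤ t ∨ t = -3 := by clear ht; omega
        by_cases hc4 : t = -1
        · refine Or.inr ⟨⟨v.j, v.a + 1, v.b, v.c, v.e - 1⟩, Or.inr (Or.inr (Or.inr (Or.inr (Or.inr (Or.inr (Or.inr (Or.inr (Or.inl (⟨rfl, by dsimp only; omega⟩))))))))), ?_⟩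
          obtain ⟨t', ht'⟩ : ∃ t' : ℤ, t' = tt ⟨v.j, v.a + 1, v.b, v.c, v.e - 1⟩ := ⟨_, rfl⟩
          rw [← ht']
          unfold tt at ht'
          dsimp only at ht' ⊢
          have h2 : t' = t + 2 := by omega
          clear ht ht'
          unfold FMR
          omega
        · refine Or.inr ⟨⟨v.j, v.a, v.b, v.c, v.e - 1⟩, Or.inr (Or.inr (Or.inr (Or.inr (Or.inr (Or.inr (Or.inr (Or.inl (by dsimp only; omega)))))))), ?_⟩
          obtain ⟨t', ht'⟩ : ∃ t' : ℤ, t' = tt ⟨v.j, v.a, v.b, v.c, v.e - 1⟩ := ⟨_, rfl⟩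
          rw [← ht']
          unfold tt at ht'
          dsimp only at ht' ⊢
          have h2 : t' = t + 2 := by omega
          clear ht ht'
          unfold FMR
          omega
      · replace h : -2 ≤ t := by clear ht; omega
        by_cases hc4 : (v.a % 2 = 0 ∧ t = 0) ∨ (v.a % 2 = 1 ∧ t = -2)
        · refine Or.inr ⟨⟨v.j, v.a + 1, v.b, v.c, v.e - 1⟩, Or.inr (Or.inr (Or.inr (Or.inr (Or.inr (Or.inr (Or.inr (Or.inr (Or.inl (⟨rfl, by dsimp only; omega⟩))))))))), ?_⟩
          obtain ⟨t', ht'⟩ : ∃ t' : ℤ, t' = tt ⟨v.j, v.a + 1, v.b, v.c, v.e - 1⟩ := ⟨_, rfl⟩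
          rw [← ht']
          unfold tt at ht'
          dsimp only at ht' ⊢
          have h2 : t' = t + 2 := by omega
          clear ht ht'
          unfold FMR
          omega
        · refine Or.inr ⟨⟨v.j, v.a, v.b, v.c, v.e - 1⟩, Or.inr (Or.inr (Or.inr (Or.inr (Or.inr (Or.inr (Or.inr (Or.inl (by dsimp only; omega)))))))), ?_⟩
          obtain ⟨t', ht'⟩ : ∃ t' : ℤ, t' = tt ⟨v.j, v.a, v.b, v.c, v.e - 1⟩ := ⟨_, rfl⟩
          rw [← ht']
          unfold tt at ht'
          dsimp only at ht' ⊢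
          have h2 : t' = t + 2 := by omega
          clear ht ht'
          unfold FMR
          omega
    · replace h : -2 ≤ t := by clear ht; omega
      by_cases hc3 : v.a % 2 = 0
      · refine Or.inr ⟨⟨v.j, v.a + 1, v.b, v.c, v.e - 1⟩, Or.inr (Or.inr (Or.inr (Or.inr (Or.inr (Or.inr (Or.inr (Or.inr (Or.inl (⟨rfl, by dsimp only; omega⟩))))))))), ?_⟩
        obtain ⟨t', ht'⟩ : ∃ t' : ℤ, t' = tt ⟨v.j, v.a + 1, v.b, v.c, v.e - 1⟩ := ⟨_, rfl⟩
        rw [← ht']
        unfold tt at ht'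
        dsimp only at ht' ⊢
        have h2 : t' = t + 2 := by omega
        clear ht ht'
        unfold FMR
        omega
      · refine Or.inr ⟨⟨v.j, v.a, v.b, v.c, v.e - 1⟩, Or.inr (Or.inr (Or.inr (Or.inr (Or.inr (Or.inr (Or.inr (Or.inl (by dsimp only; omega)))))))), ?_⟩
        obtain ⟨t', ht'⟩ : ∃ t' : ℤ, t' = tt ⟨v.j, v.a, v.b, v.c, v.e - 1⟩ := ⟨_, rfl⟩
        rw [← ht']
        unfold tt at ht'
        dsimp only at ht' ⊢
        have h2 : t' = t + 2 := by omega
        clear ht ht'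
        unfold FMR
        omega

theorem FMR_of {v : V} (h : FMR (tt v) v.a v.e) : v.j + v.a + v.b + v.c + v.e = 0 ∨ ∃ w, Mv false v w ∧ ¬ FML (tt w) w.a w.e := by
  obtain ⟨t, ht⟩ : ∃ t : ℤ, t = tt v := ⟨_, rfl⟩
  rw [← ht] at h
  unfold tt at ht
  unfold FMR at h
  by_cases hc1 : v.e = 0
  · by_cases hc2 : v.a = 0
    · replace h : t ≤ -2 ∨ t = 0 ∨ t = 1 := by clear ht; omega
      by_cases hc3 : t = 0
      · by_cases hc4 : v.j = 0
        · by_cases hc5 : v.b = 0
          · exact Or.inl (by omega)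
          · refine Or.inr ⟨⟨v.j, v.a, v.b - 1, v.c, v.e⟩, Or.inr (Or.inr (Or.inr (Or.inl (by dsimp only; omega)))), ?_⟩
            obtain ⟨t', ht'⟩ : ∃ t' : ℤ, t' = tt ⟨v.j, v.a, v.b - 1, v.c, v.e⟩ := ⟨_, rfl⟩
            rw [← ht']
            unfold tt at ht'
            dsimp only at ht' ⊢
            have h2 : t' = t - 2 := by omega
            clear ht ht'
            unfold FML
            omega
        · refine Or.inr ⟨⟨v.j - 1, v.a, v.b, v.c, v.e⟩, Or.inl (by dsimp only; omega), ?_⟩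
          obtain ⟨t', ht'⟩ : ∃ t' : ℤ, t' = tt ⟨v.j - 1, v.a, v.b, v.c, v.e⟩ := ⟨_, rfl⟩
          rw [← ht']
          unfold tt at ht'
          dsimp only at ht' ⊢
          have h2 : (t % 2 = 1 ∧ t' = t + 1) ∨ (t % 2 = 0 ∧ t' = t - 1) := by omega
          clear ht ht'
          unfold FML
          omega
      · by_cases hc4 : t = 1
        · refine Or.inr ⟨⟨v.j, v.a, v.b - 1, v.c, v.e⟩, Or.inr (Or.inr (Or.inr (Or.inl (by dsimp only; omega)))), ?_⟩
          obtain ⟨t', ht'⟩ : ∃ t' : ℤ, t' = tt ⟨v.j, v.a, v.b - 1, v.c, v.e⟩ := ⟨_, rfl⟩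
          rw [← ht']
          unfold tt at ht'
          dsimp only at ht' ⊢
          have h2 : t' = t - 2 := by omega
          clear ht ht'
          unfold FML
          omega
        · by_cases hc5 : t = -2 ∨ t = -5
          · refine Or.inr ⟨⟨v.j + 1, v.a, v.b, v.c - 1, v.e⟩, Or.inr (Or.inr (Or.inr (Or.inr (Or.inr (Or.inr (Or.inl (⟨rfl, by dsimp only; omega⟩))))))), ?_⟩
            obtain ⟨t', ht'⟩ : ∃ t' : ℤ, t' = tt ⟨v.j + 1, v.a, v.b, v.c - 1, v.e⟩ := ⟨_, rfl⟩
            rw [← ht']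
            unfold tt at ht'
            dsimp only at ht' ⊢
            have h2 : (t % 2 = 1 ∧ t' = t + 3) ∨ (t % 2 = 0 ∧ t' = t + 1) := by omega
            clear ht ht'
            unfold FML
            omega
          · refine Or.inr ⟨⟨v.j, v.a, v.b, v.c - 1, v.e⟩, Or.inr (Or.inr (Or.inr (Or.inr (Or.inr (Or.inl (by dsimp only; omega)))))), ?_⟩
            obtain ⟨t', ht'⟩ : ∃ t' : ℤ, t' = tt ⟨v.j, v.a, v.b, v.c - 1, v.e⟩ := ⟨_, rfl⟩
            rw [← ht']
            unfold tt at ht'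
            dsimp only at ht' ⊢
            have h2 : t' = t + 2 := by omega
            clear ht ht'
            unfold FML
            omega
    · by_cases hc3 : v.a % 2 = 0
      · replace h : t ≤ -1 ∨ t = 2 := by clear ht; omega
        by_cases hc4 : t = 2
        · refine Or.inr ⟨⟨v.j, v.a, v.b - 1, v.c, v.e⟩, Or.inr (Or.inr (Or.inr (Or.inl (by dsimp only; omega)))), ?_⟩
          obtain ⟨t', ht'⟩ : ∃ t' : ℤ, t' = tt ⟨v.j, v.a, v.b - 1, v.c, v.e⟩ := ⟨_, rfl⟩
          rw [← ht']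
          unfold tt at ht'
          dsimp only at ht' ⊢
          have h2 : t' = t - 2 := by omega
          clear ht ht'
          unfold FML
          omega
        · by_cases hc5 : t = -1
          · refine Or.inr ⟨⟨v.j - 1, v.a, v.b, v.c, v.e⟩, Or.inl (by dsimp only; omega), ?_⟩
            obtain ⟨t', ht'⟩ : ∃ t' : ℤ, t' = tt ⟨v.j - 1, v.a, v.b, v.c, v.e⟩ := ⟨_, rfl⟩
            rw [← ht']
            unfold tt at ht'
            dsimp only at ht' ⊢
            have h2 : (t % 2 = 1 ∧ t' = t + 1) ∨ (t % 2 = 0 ∧ t' = t - 1) := by omega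
            clear ht ht'
            unfold FML
            omega
          · by_cases hc6 : t = -3 ∨ t = -4
            · refine Or.inr ⟨⟨v.j + 1, v.a, v.b, v.c - 1, v.e⟩, Or.inr (Or.inr (Or.inr (Or.inr (Or.inr (Or.inr (Or.inl (⟨rfl, by dsimp only; omega⟩))))))), ?_⟩
              obtain ⟨t', ht'⟩ : ∃ t' : ℤ, t' = tt ⟨v.j + 1, v.a, v.b, v.c - 1, v.e⟩ := ⟨_, rfl⟩
              rw [← ht']
              unfold tt at ht'
              dsimp only at ht' ⊢
              have h2 : (t % 2 = 1 ∧ t' = t + 3) ∨ (t % 2 = 0 ∧ t' = t + 1) := by omega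
              clear ht ht'
              unfold FML
              omega
            · refine Or.inr ⟨⟨v.j, v.a, v.b, v.c - 1, v.e⟩, Or.inr (Or.inr (Or.inr (Or.inr (Or.inr (Or.inl (by dsimp only; omega)))))), ?_⟩
              obtain ⟨t', ht'⟩ : ∃ t' : ℤ, t' = tt ⟨v.j, v.a, v.b, v.c - 1, v.e⟩ := ⟨_, rfl⟩
              rw [← ht']
              unfold tt at ht'
              dsimp only at ht' ⊢
              have h2 : t' = t + 2 := by omega
              clear ht ht'
              unfold FML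
              omega
      · replace h : t ≤ 0 := by clear ht; omega
        by_cases hc4 : v.a = 1
        · by_cases hc5 : t = 0 ∨ t = -3
          · refine Or.inr ⟨⟨v.j + 1, v.a - 1, v.b, v.c, v.e⟩, Or.inr (Or.inr (Or.inl (by dsimp only; omega))), ?_⟩
            obtain ⟨t', ht'⟩ : ∃ t' : ℤ, t' = tt ⟨v.j + 1, v.a - 1, v.b, v.c, v.e⟩ := ⟨_, rfl⟩
            rw [← ht']
            unfold tt at ht'
            dsimp only at ht' ⊢
            have h2 : (t % 2 = 1 ∧ t' = t + 1) ∨ (t % 2 = 0 ∧ t' = t - 1) := by omega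
            clear ht ht'
            unfold FML
            omega
          · refine Or.inr ⟨⟨v.j, v.a - 1, v.b, v.c, v.e⟩, Or.inr (Or.inl (by dsimp only; omega)), ?_⟩
            obtain ⟨t', ht'⟩ : ∃ t' : ℤ, t' = tt ⟨v.j, v.a - 1, v.b, v.c, v.e⟩ := ⟨_, rfl⟩
            rw [← ht']
            unfold tt at ht'
            dsimp only at ht' ⊢
            have h2 : t' = t + 0 := by omega
            clear ht ht'
            unfold FML
            omega
        · by_cases hc5 : t = -1 ∨ t = -2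
          · refine Or.inr ⟨⟨v.j + 1, v.a - 1, v.b, v.c, v.e⟩, Or.inr (Or.inr (Or.inl (by dsimp only; omega))), ?_⟩
            obtain ⟨t', ht'⟩ : ∃ t' : ℤ, t' = tt ⟨v.j + 1, v.a - 1, v.b, v.c, v.e⟩ := ⟨_, rfl⟩
            rw [← ht']
            unfold tt at ht'
            dsimp only at ht' ⊢
            have h2 : (t % 2 = 1 ∧ t' = t + 1) ∨ (t % 2 = 0 ∧ t' = t - 1) := by omega
            clear ht ht'
            unfold FML
            omega
          · refine Or.inr ⟨⟨v.j, v.a - 1, v.b, v.c, v.e⟩, Or.inr (Or.inl (by dsimp only; omega)), ?_⟩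
            obtain ⟨t', ht'⟩ : ∃ t' : ℤ, t' = tt ⟨v.j, v.a - 1, v.b, v.c, v.e⟩ := ⟨_, rfl⟩
            rw [← ht']
            unfold tt at ht'
            dsimp only at ht' ⊢
            have h2 : t' = t + 0 := by omega
            clear ht ht'
            unfold FML
            omega
  · replace h : t ≤ -1 ∨ (t = 0 ∧ v.e = 1 ∧ v.a % 2 = 0) := by clear ht; omega
    by_cases hc2 : v.e = 1
    · by_cases hc3 : v.a = 0
      · by_cases hc4 : t = 0
        · refine Or.inr ⟨⟨v.j, v.a, v.b - 1, v.c, v.e⟩, Or.inr (Or.inr (Or.inr (Or.inl (by dsimp only; omega)))), ?_⟩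
          obtain ⟨t', ht'⟩ : ∃ t' : ℤ, t' = tt ⟨v.j, v.a, v.b - 1, v.c, v.e⟩ := ⟨_, rfl⟩
          rw [← ht']
          unfold tt at ht'
          dsimp only at ht' ⊢
          have h2 : t' = t - 2 := by omega
          clear ht ht'
          unfold FML
          omega
        · by_cases hc5 : t = -3
          · refine Or.inr ⟨⟨v.j, v.a, v.b, v.c, v.e - 1⟩, Or.inr (Or.inr (Or.inr (Or.inr (Or.inr (Or.inr (Or.inr (Or.inl (by dsimp only; omega)))))))), ?_⟩
            obtain ⟨t', ht'⟩ : ∃ t' : ℤ, t' = tt ⟨v.j, v.a, v.b, v.c, v.e - 1⟩ := ⟨_, rfl⟩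
            rw [← ht']
            unfold tt at ht'
            dsimp only at ht' ⊢
            have h2 : t' = t + 2 := by omega
            clear ht ht'
            unfold FML
            omega
          · refine Or.inr ⟨⟨v.j, v.a, v.b, v.c + 1, v.e - 1⟩, Or.inr (Or.inr (Or.inr (Or.inr (Or.inr (Or.inr (Or.inr (Or.inr (Or.inr (Or.inr (⟨rfl, by dsimp only; omega⟩)))))))))), ?_⟩
            obtain ⟨t', ht'⟩ : ∃ t' : ℤ, t' = tt ⟨v.j, v.a, v.b, v.c + 1, v.e - 1⟩ := ⟨_, rfl⟩
            rw [← ht']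
            unfold tt at ht'
            dsimp only at ht' ⊢
            have h2 : t' = t + 0 := by omega
            clear ht ht'
            unfold FML
            omega
      · by_cases hc4 : t = -1
        · refine Or.inr ⟨⟨v.j, v.a, v.b - 1, v.c, v.e⟩, Or.inr (Or.inr (Or.inr (Or.inl (by dsimp only; omega)))), ?_⟩
          obtain ⟨t', ht'⟩ : ∃ t' : ℤ, t' = tt ⟨v.j, v.a, v.b - 1, v.c, v.e⟩ := ⟨_, rfl⟩
          rw [← ht']
          unfold tt at ht'
          dsimp only at ht' ⊢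
          have h2 : t' = t - 2 := by omega
          clear ht ht'
          unfold FML
          omega
        · by_cases hc5 : t = -2 ∧ v.a % 2 = 0
          · refine Or.inr ⟨⟨v.j, v.a, v.b, v.c, v.e - 1⟩, Or.inr (Or.inr (Or.inr (Or.inr (Or.inr (Or.inr (Or.inr (Or.inl (by dsimp only; omega)))))))), ?_⟩
            obtain ⟨t', ht'⟩ : ∃ t' : ℤ, t' = tt ⟨v.j, v.a, v.b, v.c, v.e - 1⟩ := ⟨_, rfl⟩
            rw [← ht']
            unfold tt at ht'
            dsimp only at ht' ⊢
            have h2 : t' = t + 2 := by omega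
            clear ht ht'
            unfold FML
            omega
          · refine Or.inr ⟨⟨v.j, v.a, v.b, v.c + 1, v.e - 1⟩, Or.inr (Or.inr (Or.inr (Or.inr (Or.inr (Or.inr (Or.inr (Or.inr (Or.inr (Or.inr (⟨rfl, by dsimp only; omega⟩)))))))))), ?_⟩
            obtain ⟨t', ht'⟩ : ∃ t' : ℤ, t' = tt ⟨v.j, v.a, v.b, v.c + 1, v.e - 1⟩ := ⟨_, rfl⟩
            rw [← ht']
            unfold tt at ht'
            dsimp only at ht' ⊢
            have h2 : t' = t + 0 := by omega
            clear ht ht'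
            unfold FML
            omega
    · by_cases hc3 : t = -1 ∨ t = -2 ∨ (t = -3 ∧ v.a = 0)
      · refine Or.inr ⟨⟨v.j, v.a, v.b - 1, v.c, v.e⟩, Or.inr (Or.inr (Or.inr (Or.inl (by dsimp only; omega)))), ?_⟩
        obtain ⟨t', ht'⟩ : ∃ t' : ℤ, t' = tt ⟨v.j, v.a, v.b - 1, v.c, v.e⟩ := ⟨_, rfl⟩
        rw [← ht']
        unfold tt at ht'
        dsimp only at ht' ⊢
        have h2 : t' = t - 2 := by omega
        clear ht ht'
        unfold FML
        omega
      · refine Or.inr ⟨⟨v.j, v.a, v.b, v.c + 1, v.e - 1⟩, Or.inr (Or.inr (Or.inr (Or.inr (Or.inr (Or.inr (Or.inr (Or.inr (Or.inr (Or.inr (⟨rfl, by dsimp only; omega⟩)))))))))), ?_⟩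
        obtain ⟨t', ht'⟩ : ∃ t' : ℤ, t' = tt ⟨v.j, v.a, v.b, v.c + 1, v.e - 1⟩ := ⟨_, rfl⟩
        rw [← ht']
        unfold tt at ht'
        dsimp only at ht' ⊢
        have h2 : t' = t + 0 := by omega
        clear ht ht'
        unfold FML
        omega

theorem Mv_tt {s : Bool} {v w : V} (h : Mv s v w) :
    (((tt v % 2 = 1 ∧ tt w = tt v + 1 ) ∨ (tt v % 2 = 0 ∧ tt w = tt v - 1 )) ∧ w.a = v.a ∧ w.e = v.e) ∨
    (tt w = tt v ∧ v.a = w.a + 1 ∧ w.e = v.e) ∨
    (((tt v % 2 = 1 ∧ tt w = tt v + 1 ) ∨ (tt v % 2 = 0 ∧ tt w = tt v - 1 )) ∧ v.a = w.a + 1 ∧ w.e = v.e) ∨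
    (tt w = tt v - 2 ∧ w.a = v.a ∧ w.e = v.e) ∨
    (s = true ∧ ((tt v % 2 = 1 ∧ tt w = tt v + 1 - 2) ∨ (tt v % 2 = 0 ∧ tt w = tt v - 1 - 2)) ∧ w.a = v.a ∧ w.e = v.e) ∨
    (tt w = tt v + 2 ∧ w.a = v.a ∧ w.e = v.e) ∨
    (s = false ∧ ((tt v % 2 = 1 ∧ tt w = tt v + 1 + 2) ∨ (tt v % 2 = 0 ∧ tt w = tt v - 1 + 2)) ∧ w.a = v.a ∧ w.e = v.e) ∨
    (tt w = tt v + 2 ∧ w.a = v.a ∧ v.e = w.e + 1) ∨
    (s = true ∧ tt w = tt v + 2 ∧ w.a = v.a + 1 ∧ v.e = w.e + 1) ∨
    (s = false ∧ tt w = tt v + 4 ∧ w.a = v.a ∧ v.e = w.e + 1) ∨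
    (s = false ∧ tt w = tt v ∧ w.a = v.a ∧ v.e = w.e + 1) := by
  unfold Mv at h
  unfold tt
  rcases h with h | h | h | h | ⟨hs, h⟩ | h | ⟨hs, h⟩ | h | ⟨hs, h⟩ | ⟨hs, h⟩ | ⟨hs, h⟩
  · exact Or.inl (by omega)
  · exact Or.inr (Or.inl (by omega))
  · exact Or.inr (Or.inr (Or.inl (by omega)))
  · exact Or.inr (Or.inr (Or.inr (Or.inl (by omega))))
  · exact Or.inr (Or.inr (Or.inr (Or.inr (Or.inl (⟨hs, by omega⟩)))))
  · exact Or.inr (Or.inr (Or.inr (Or.inr (Or.inr (Or.inl (by omega))))))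
  · exact Or.inr (Or.inr (Or.inr (Or.inr (Or.inr (Or.inr (Or.inl (⟨hs, by omega⟩)))))))
  · exact Or.inr (Or.inr (Or.inr (Or.inr (Or.inr (Or.inr (Or.inr (Or.inl (by omega))))))))
  · exact Or.inr (Or.inr (Or.inr (Or.inr (Or.inr (Or.inr (Or.inr (Or.inr (Or.inl (⟨hs, by omega⟩)))))))))
  · exact Or.inr (Or.inr (Or.inr (Or.inr (Or.inr (Or.inr (Or.inr (Or.inr (Or.inr (Or.inl (⟨hs, by omega⟩))))))))))
  · exact Or.inr (Or.inr (Or.inr (Or.inr (Or.inr (Or.inr (Or.inr (Or.inr (Or.inr (Or.inr (⟨hs, by omega⟩))))))))))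

theorem FNL_not {v w : V} (h : ¬ FNL (tt v) v.a v.e) (hm : Mv true v w) : FNR (tt w) w.a w.e := by
  have hm := Mv_tt hm
  simp only [Bool.false_eq_true, Bool.true_eq_false, false_and, false_or, or_false, true_and, reduceCtorEq] at hm
  obtain ⟨t, ht⟩ : ∃ t : ℤ, t = tt v := ⟨_, rfl⟩
  obtain ⟨t', ht'⟩ : ∃ t : ℤ, t = tt w := ⟨_, rfl⟩
  rw [← ht] at h hm
  rw [← ht'] at hm ⊢
  clear ht ht'
  unfold FNL at h
  unfold FNR
  rcases hm with hm | hm | hm | hm | hm | hm | hm | hm <;> omega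

theorem FNR_not {v w : V} (h : ¬ FNR (tt v) v.a v.e) (hm : Mv false v w) : FNL (tt w) w.a w.e := by
  have hm := Mv_tt hm
  simp only [Bool.false_eq_true, Bool.true_eq_false, false_and, false_or, or_false, true_and, reduceCtorEq] at hm
  obtain ⟨t, ht⟩ : ∃ t : ℤ, t = tt v := ⟨_, rfl⟩
  obtain ⟨t', ht'⟩ : ∃ t : ℤ, t = tt w := ⟨_, rfl⟩
  rw [← ht] at h hm
  rw [← ht'] at hm ⊢
  clear ht ht'
  unfold FNR at h
  unfold FNL
  rcases hm with hm | hm | hm | hm | hm | hm | hm | hm | hm <;> omega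

set_option maxHeartbeats 2000000 in
theorem FML_not {v w : V} (h : ¬ FML (tt v) v.a v.e) (hm : Mv true v w) : FMR (tt w) w.a w.e := by
  have hm := Mv_tt hm
  simp only [Bool.false_eq_true, Bool.true_eq_false, false_and, false_or, or_false, true_and, reduceCtorEq] at hm
  obtain ⟨t, ht⟩ : ∃ t : ℤ, t = tt v := ⟨_, rfl⟩
  obtain ⟨t', ht'⟩ : ∃ t : ℤ, t = tt w := ⟨_, rfl⟩
  rw [← ht] at h hm
  rw [← ht'] at hm ⊢
  clear ht ht'
  unfold FML at h
  unfold FMR
  have he : v.e = 0 ∨ v.e = 1 ∨ 2 ≤ v.e := by omega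
  have ha : v.a = 0 ∨ v.a = 1 ∨ 2 ≤ v.a := by omega
  rcases hm with hm | hm | hm | hm | hm | hm | hm | hm <;> rcases he with he | he | he <;> rcases ha with ha | ha | ha <;> omega

set_option maxHeartbeats 2000000 in
theorem FMR_not {v w : V} (h : ¬ FMR (tt v) v.a v.e) (hm : Mv false v w) : FML (tt w) w.a w.e := by
  have hm := Mv_tt hm
  simp only [Bool.false_eq_true, Bool.true_eq_false, false_and, false_or, or_false, true_and, reduceCtorEq] at hm
  obtain ⟨t, ht⟩ : ∃ t : ℤ, t = tt v := ⟨_, rfl⟩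
  obtain ⟨t', ht'⟩ : ∃ t : ℤ, t = tt w := ⟨_, rfl⟩
  rw [← ht] at h hm
  rw [← ht'] at hm ⊢
  clear ht ht'
  unfold FMR at h
  unfold FML
  have he : v.e = 0 ∨ v.e = 1 ∨ 2 ≤ v.e := by omega
  have ha : v.a = 0 ∨ v.a = 1 ∨ 2 ≤ v.a := by omega
  rcases hm with hm | hm | hm | hm | hm | hm | hm | hm | hm <;> rcases he with he | he | he <;> rcases ha with ha | ha | ha <;> omega

/-- the player `s`, moving first, wins the sums given by `v` -/
def F (mis s : Bool) (v : V) : Prop :=
  match mis, s with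
  | false, true => FNL (tt v) v.a v.e
  | false, false => FNR (tt v) v.a v.e
  | true, true => FML (tt v) v.a v.e
  | true, false => FMR (tt v) v.a v.e

theorem F_of (mis s : Bool) {v : V} (h : F mis s v) :
    (mis = true ∧ v.j + v.a + v.b + v.c + v.e = 0) ∨ ∃ w, Mv s v w ∧ ¬ F mis (!s) w := by
  cases mis <;> cases s
  · exact Or.inr (FNR_of h)
  · exact Or.inr (FNL_of h)
  · rcases FMR_of h with h | h
    · exact Or.inl ⟨rfl, h⟩
    · exact Or.inr h
  · rcases FML_of h with h | h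
    · exact Or.inl ⟨rfl, h⟩
    · exact Or.inr h

theorem F_not (mis s : Bool) {v w : V} (h : ¬ F mis s v) (hm : Mv s v w) : F mis (!s) w := by
  cases mis <;> cases s
  · exact FNR_not h hm
  · exact FNL_not h hm
  · exact FMR_not h hm
  · exact FML_not h hm

theorem F_zero (s : Bool) {v : V} (h : v.j + v.a + v.b + v.c + v.e = 0) : F true s v := by
  cases s
  · unfold F FMR tt
    dsimp only
    omega
  · unfold F FML tt
    dsimp only
    omega

/-- the outcomes of all sums -/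
theorem T_wins (mis s : Bool) {v : V} {x : Game} (h : T v x) : wins mis s x ↔ F mis s v := by
  have key : ∀ n, ∀ s : Bool, ∀ v : V, ∀ x : Game, rank x < n → T v x → (wins mis s x ↔ F mis s v) := by
    intro n
    induction n with
    | zero => intro s v x h; omega
    | succ n ih =>
      intro s v x hn hx
      rw [wins_iff]
      constructor
      · rintro (⟨h1, h2⟩ | ⟨y, hy, h1⟩)
        · rw [T_nil s hx] at h2
          rw [h1]
          exact F_zero s h2
        · obtain ⟨w, h2, h3⟩ := T_opt hx hy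
          have := rank_lt hy
          rw [ih (!s) w y (by omega) h3] at h1
          by_contra hF
          exact h1 (F_not mis s hF h2)
      · intro hF
        rcases F_of mis s hF with ⟨h1, h2⟩ | ⟨w, h1, h2⟩
        · exact Or.inl ⟨h1, (T_nil s hx).2 h2⟩
        · obtain ⟨y, hy, h3⟩ := T_mv hx h1
          have := rank_lt hy
          refine Or.inr ⟨y, hy, ?_⟩
          rw [ih (!s) w y (by omega) h3]
          exact h2
  exact key _ s v x (Nat.lt_succ_self _) h

/-! ### The set `A` and the kernel -/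

/-- the sums `j * + a *2 + b u + c d + e G` -/
def setA : Set Game := {x | ∃ v, T v x}

/-- the games of `A` with the same outcome in normal and in misère play -/
def setK : Set Game := {x | x ∈ setA ∧ outcome false x = outcome true x}

theorem T_zero : T ⟨0, 0, 0, 0, 0⟩ zero := by
  rw [T_iff]
  intro s
  refine ⟨fun y hy => ?_, fun w h => ?_⟩
  · rw [opts_zero] at hy
    exact absurd hy List.not_mem_nil
  · unfold Mv at h
    dsimp only at h
    omega

theorem T_star : T ⟨1, 0, 0, 0, 0⟩ star := by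
  rw [T_iff]
  intro s
  cases s
  · refine ⟨fun y hy => ?_, fun w h => ?_⟩
    · have : y = zero := by
        simpa [star, opts_game_true, opts_game_false] using hy
      subst this
      exact ⟨_, by unfold Mv; simp, T_zero⟩
    · unfold Mv at h
      simp only [Bool.false_eq_true, Bool.true_eq_false, false_and, and_false, false_or, or_false, true_and, reduceCtorEq] at h
      have h' : w = ⟨0, 0, 0, 0, 0⟩ := by
        simp only [V.ext_iff]
        omega
      subst h'
      exact ⟨zero, by simp [star, opts_game_true, opts_game_false], T_zero⟩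
  · refine ⟨fun y hy => ?_, fun w h => ?_⟩
    · have : y = zero := by
        simpa [star, opts_game_true, opts_game_false] using hy
      subst this
      exact ⟨_, by unfold Mv; simp, T_zero⟩
    · unfold Mv at h
      simp only [Bool.false_eq_true, Bool.true_eq_false, false_and, and_false, false_or, or_false, true_and, reduceCtorEq] at h
      have h' : w = ⟨0, 0, 0, 0, 0⟩ := by
        simp only [V.ext_iff]
        omega
      subst h'
      exact ⟨zero, by simp [star, opts_game_true, opts_game_false], T_zero⟩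

theorem T_star2 : T ⟨0, 1, 0, 0, 0⟩ star2 := by
  rw [T_iff]
  intro s
  cases s
  · refine ⟨fun y hy => ?_, fun w h => ?_⟩
    · have : y = zero ∨ y = star := by
        simpa [star2, opts_game_true, opts_game_false] using hy
      rcases this with rfl | rfl
      · exact ⟨_, by unfold Mv; simp, T_zero⟩
      · exact ⟨_, by unfold Mv; simp, T_star⟩
    · unfold Mv at h
      simp only [Bool.false_eq_true, Bool.true_eq_false, false_and, and_false, false_or, or_false, true_and, reduceCtorEq] at h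
      have h' : w = ⟨0, 0, 0, 0, 0⟩ ∨ w = ⟨1, 0, 0, 0, 0⟩ := by
        simp only [V.ext_iff]
        omega
      rcases h' with rfl | rfl
      · exact ⟨zero, by simp [star2, opts_game_true, opts_game_false], T_zero⟩
      · exact ⟨star, by simp [star2, opts_game_true, opts_game_false], T_star⟩
  · refine ⟨fun y hy => ?_, fun w h => ?_⟩
    · have : y = zero ∨ y = star := by
        simpa [star2, opts_game_true, opts_game_false] using hy
      rcases this with rfl | rfl
      · exact ⟨_, by unfold Mv; simp, T_zero⟩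
      · exact ⟨_, by unfold Mv; simp, T_star⟩
    · unfold Mv at h
      simp only [Bool.false_eq_true, Bool.true_eq_false, false_and, and_false, false_or, or_false, true_and, reduceCtorEq] at h
      have h' : w = ⟨0, 0, 0, 0, 0⟩ ∨ w = ⟨1, 0, 0, 0, 0⟩ := by
        simp only [V.ext_iff]
        omega
      rcases h' with rfl | rfl
      · exact ⟨zero, by simp [star2, opts_game_true, opts_game_false], T_zero⟩
      · exact ⟨star, by simp [star2, opts_game_true, opts_game_false], T_star⟩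

theorem T_U : T ⟨0, 0, 1, 0, 0⟩ gU := by
  rw [T_iff]
  intro s
  cases s
  · refine ⟨fun y hy => ?_, fun w h => ?_⟩
    · have : y = zero := by
        simpa [gU, opts_game_true, opts_game_false] using hy
      subst this
      exact ⟨_, by unfold Mv; simp, T_zero⟩
    · unfold Mv at h
      simp only [Bool.false_eq_true, Bool.true_eq_false, false_and, and_false, false_or, or_false, true_and, reduceCtorEq] at h
      have h' : w = ⟨0, 0, 0, 0, 0⟩ := by
        simp only [V.ext_iff]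
        omega
      subst h'
      exact ⟨zero, by simp [gU, opts_game_true, opts_game_false], T_zero⟩
  · refine ⟨fun y hy => ?_, fun w h => ?_⟩
    · have : y = zero ∨ y = star := by
        simpa [gU, opts_game_true, opts_game_false] using hy
      rcases this with rfl | rfl
      · exact ⟨_, by unfold Mv; simp, T_zero⟩
      · exact ⟨_, by unfold Mv; simp, T_star⟩
    · unfold Mv at h
      simp only [Bool.false_eq_true, Bool.true_eq_false, false_and, and_false, false_or, or_false, true_and, reduceCtorEq] at h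
      have h' : w = ⟨0, 0, 0, 0, 0⟩ ∨ w = ⟨1, 0, 0, 0, 0⟩ := by
        simp only [V.ext_iff]
        omega
      rcases h' with rfl | rfl
      · exact ⟨zero, by simp [gU, opts_game_true, opts_game_false], T_zero⟩
      · exact ⟨star, by simp [gU, opts_game_true, opts_game_false], T_star⟩

theorem T_D : T ⟨0, 0, 0, 1, 0⟩ gD := by
  rw [T_iff]
  intro s
  cases s
  · refine ⟨fun y hy => ?_, fun w h => ?_⟩
    · have : y = zero ∨ y = star := by
        simpa [gD, opts_game_true, opts_game_false] using hy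
      rcases this with rfl | rfl
      · exact ⟨_, by unfold Mv; simp, T_zero⟩
      · exact ⟨_, by unfold Mv; simp, T_star⟩
    · unfold Mv at h
      simp only [Bool.false_eq_true, Bool.true_eq_false, false_and, and_false, false_or, or_false, true_and, reduceCtorEq] at h
      have h' : w = ⟨0, 0, 0, 0, 0⟩ ∨ w = ⟨1, 0, 0, 0, 0⟩ := by
        simp only [V.ext_iff]
        omega
      rcases h' with rfl | rfl
      · exact ⟨zero, by simp [gD, opts_game_true, opts_game_false], T_zero⟩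
      · exact ⟨star, by simp [gD, opts_game_true, opts_game_false], T_star⟩
  · refine ⟨fun y hy => ?_, fun w h => ?_⟩
    · have : y = zero := by
        simpa [gD, opts_game_true, opts_game_false] using hy
      subst this
      exact ⟨_, by unfold Mv; simp, T_zero⟩
    · unfold Mv at h
      simp only [Bool.false_eq_true, Bool.true_eq_false, false_and, and_false, false_or, or_false, true_and, reduceCtorEq] at h
      have h' : w = ⟨0, 0, 0, 0, 0⟩ := by
        simp only [V.ext_iff]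
        omega
      subst h'
      exact ⟨zero, by simp [gD, opts_game_true, opts_game_false], T_zero⟩

theorem T_G : T ⟨0, 0, 0, 0, 1⟩ gG := by
  rw [T_iff]
  intro s
  cases s
  · refine ⟨fun y hy => ?_, fun w h => ?_⟩
    · have : y = zero ∨ y = gU ∨ y = gD := by
        simpa [gG, opts_game_true, opts_game_false] using hy
      rcases this with rfl | rfl | rfl
      · exact ⟨_, by unfold Mv; simp, T_zero⟩
      · exact ⟨_, by unfold Mv; simp, T_U⟩
      · exact ⟨_, by unfold Mv; simp, T_D⟩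
    · unfold Mv at h
      simp only [Bool.false_eq_true, Bool.true_eq_false, false_and, and_false, false_or, or_false, true_and, reduceCtorEq] at h
      have h' : w = ⟨0, 0, 0, 0, 0⟩ ∨ w = ⟨0, 0, 1, 0, 0⟩ ∨ w = ⟨0, 0, 0, 1, 0⟩ := by
        simp only [V.ext_iff]
        omega
      rcases h' with rfl | rfl | rfl
      · exact ⟨zero, by simp [gG, opts_game_true, opts_game_false], T_zero⟩
      · exact ⟨gU, by simp [gG, opts_game_true, opts_game_false], T_U⟩
      · exact ⟨gD, by simp [gG, opts_game_true, opts_game_false], T_D⟩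
  · refine ⟨fun y hy => ?_, fun w h => ?_⟩
    · have : y = zero ∨ y = star2 := by
        simpa [gG, opts_game_true, opts_game_false] using hy
      rcases this with rfl | rfl
      · exact ⟨_, by unfold Mv; simp, T_zero⟩
      · exact ⟨_, by unfold Mv; simp, T_star2⟩
    · unfold Mv at h
      simp only [Bool.false_eq_true, Bool.true_eq_false, false_and, and_false, false_or, or_false, true_and, reduceCtorEq] at h
      have h' : w = ⟨0, 0, 0, 0, 0⟩ ∨ w = ⟨0, 1, 0, 0, 0⟩ := by
        simp only [V.ext_iff]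
        omega
      rcases h' with rfl | rfl
      · exact ⟨zero, by simp [gG, opts_game_true, opts_game_false], T_zero⟩
      · exact ⟨star2, by simp [gG, opts_game_true, opts_game_false], T_star2⟩

theorem outcome_congr {m m' : Bool} {v w : V} {x y : Game} (hx : T v x) (hy : T w y)
    (h : ∀ s, F m s v ↔ F m' s w) : outcome m x = outcome m' y := by
  apply outcome_eq
  intro s
  rw [T_wins m s hx, T_wins m' s hy]
  exact h s

theorem wins_of_outcome {m m' : Bool} {x y : Game} (h : outcome m x = outcome m' y) (s : Bool) :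
    wins m s x ↔ wins m' s y := by
  unfold outcome at h
  by_cases h1 : wins m true x <;> by_cases h2 : wins m false x <;> by_cases h3 : wins m' true y <;>
    by_cases h4 : wins m' false y <;> cases s <;> simp_all

theorem FNR_iff {t : ℤ} {a e : ℕ} (hc : ¬ ((e = 0 ∧ a = 0) ∨ (e = 1 ∧ a = 0 ∧ (t = -2 ∨ t = -3)))) :
    FNR t a e ↔ FMR t a e := by
  unfold FNR FMR
  constructor
  · intro h
    rcases h with h | h | h <;> omega
  · intro h
    rcases h with h | h | h | h <;> omega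

theorem FNL_iff {t : ℤ} {a e : ℕ} (hc : ¬ ((e = 0 ∧ a = 0) ∨ (e = 1 ∧ a = 0 ∧ (t = -2 ∨ t = -3)))) :
    FNL t a e ↔ FML t a e := by
  unfold FNL FML
  constructor
  · intro h
    rcases h with h | h | h <;> omega
  · intro h
    rcases h with h | h | h | h | h <;> omega

theorem twin_R {t t' : ℤ} {a e : ℕ} (ht : (t % 2 = 1 ∧ t' = t + 1) ∨ (t % 2 = 0 ∧ t' = t - 1))
    (hc : (e = 0 ∧ a = 0) ∨ (e = 1 ∧ a = 0 ∧ (t = -2 ∨ t = -3))) : FNR t a e ↔ FMR t' a e := by
  unfold FNR FMR
  rcases ht with ht | ht <;> rcases hc with ⟨rfl, rfl⟩ | ⟨rfl, rfl, hc⟩ <;> simp <;> omega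

theorem twin_L {t t' : ℤ} {a e : ℕ} (ht : (t % 2 = 1 ∧ t' = t + 1) ∨ (t % 2 = 0 ∧ t' = t - 1))
    (hc : (e = 0 ∧ a = 0) ∨ (e = 1 ∧ a = 0 ∧ (t = -2 ∨ t = -3))) : FNL t a e ↔ FML t' a e := by
  unfold FNL FML
  rcases ht with ht | ht <;> rcases hc with ⟨rfl, rfl⟩ | ⟨rfl, rfl, hc⟩ <;> simp <;> omega

theorem twin_R2 {t t' : ℤ} {a e : ℕ} (ht : (t % 2 = 1 ∧ t' = t + 1) ∨ (t % 2 = 0 ∧ t' = t - 1))
    (hc : (e = 0 ∧ a = 0) ∨ (e = 1 ∧ a = 0 ∧ (t = -2 ∨ t = -3))) : FMR t a e ↔ FNR t' a e := by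
  unfold FMR FNR
  rcases ht with ht | ht <;> rcases hc with ⟨rfl, rfl⟩ | ⟨rfl, rfl, hc⟩ <;> simp <;> omega

theorem twin_L2 {t t' : ℤ} {a e : ℕ} (ht : (t % 2 = 1 ∧ t' = t + 1) ∨ (t % 2 = 0 ∧ t' = t - 1))
    (hc : (e = 0 ∧ a = 0) ∨ (e = 1 ∧ a = 0 ∧ (t = -2 ∨ t = -3))) : FML t a e ↔ FNL t' a e := by
  unfold FML FNL
  rcases ht with ht | ht <;> rcases hc with ⟨rfl, rfl⟩ | ⟨rfl, rfl, hc⟩ <;> simp <;> omega

/-- all sums with different outcomes in normal and misère play have an evil twin -/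
theorem twin {v : V} (h : ¬ ∀ s, F false s v ↔ F true s v) :
    (∀ s, F false s v ↔ F true s (v.plus ⟨1, 0, 0, 0, 0⟩)) ∧ ∀ s, F true s v ↔ F false s (v.plus ⟨1, 0, 0, 0, 0⟩) := by
  have hcl : (v.e = 0 ∧ v.a = 0) ∨ (v.e = 1 ∧ v.a = 0 ∧ (tt v = -2 ∨ tt v = -3)) := by
    by_contra hc
    apply h
    intro s
    cases s
    · show FNR (tt v) v.a v.e ↔ FMR (tt v) v.a v.e
      exact FNR_iff hc
    · show FNL (tt v) v.a v.e ↔ FML (tt v) v.a v.e
      exact FNL_iff hc
  clear h
  obtain ⟨w, hw⟩ : ∃ w, w = v.plus ⟨1, 0, 0, 0, 0⟩ := ⟨_, rfl⟩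
  rw [← hw]
  have hwa : w.a = v.a := by rw [hw]; rfl
  have hwe : w.e = v.e := by rw [hw]; rfl
  have hwt : (tt v % 2 = 1 ∧ tt w = tt v + 1) ∨ (tt v % 2 = 0 ∧ tt w = tt v - 1) := by
    rw [hw]
    unfold tt V.plus
    dsimp only
    omega
  constructor
  · intro s
    cases s
    · show FNR (tt v) v.a v.e ↔ FMR (tt w) w.a w.e
      rw [hwa, hwe]
      exact twin_R hwt hcl
    · show FNL (tt v) v.a v.e ↔ FML (tt w) w.a w.e
      rw [hwa, hwe]
      exact twin_L hwt hcl
  · intro s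
    cases s
    · show FMR (tt v) v.a v.e ↔ FNR (tt w) w.a w.e
      rw [hwa, hwe]
      exact twin_R2 hwt hcl
    · show FML (tt v) v.a v.e ↔ FNL (tt w) w.a w.e
      rw [hwa, hwe]
      exact twin_L2 hwt hcl

theorem evilKernel : EvilKernel setA setK := by
  refine ⟨fun x hx => hx.1, fun x _ hx => hx.2, fun x hA hx => ?_⟩
  obtain ⟨v, hv⟩ := hA
  have hne : ¬ ∀ s, F false s v ↔ F true s v := fun h => hx ⟨⟨v, hv⟩, outcome_congr hv hv h⟩
  have hv' := T_add hv T_star
  exact ⟨outcome_congr hv hv' (twin hne).1, outcome_congr hv hv' (twin hne).2⟩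

theorem closed_A : Closed setA := by
  refine ⟨?_, ?_⟩
  · rintro x ⟨v, hx⟩ y ⟨w, hy⟩
    exact ⟨_, T_add hx hy⟩
  · rintro x ⟨v, hx⟩ s y hy
    obtain ⟨w, _, h⟩ := T_opt hx hy
    exact ⟨w, h⟩

theorem invariant_A : Invariant setA := by
  rintro x ⟨v, hx⟩ y hxy
  exact ⟨v, T_same hx hxy⟩

theorem invariant_K : Invariant setK := by
  rintro x ⟨⟨v, hx⟩, h⟩ y hxy
  have hy := T_same hx hxy
  refine ⟨⟨v, hy⟩, ?_⟩
  rw [← outcome_congr hx hy fun s => Iff.rfl, ← outcome_congr hx hy fun s => Iff.rfl]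
  exact h

theorem not_evillyNormal {K : Set Game} (hK : EvilKernel setA K) : ¬ EvillyNormal setA K := by
  intro hE
  have hU : gU ∉ K := by
    intro h
    have h1 := wins_of_outcome (hK.2.1 gU ⟨_, T_U⟩ h) false
    rw [T_wins false false T_U, T_wins true false T_U] at h1
    revert h1
    unfold F FNR FMR tt
    dsimp only
    omega
  have hG : gG ∉ K := by
    intro h
    have h1 := wins_of_outcome (hK.2.1 gG ⟨_, T_G⟩ h) true
    rw [T_wins false true T_G, T_wins true true T_G] at h1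
    revert h1
    unfold F FNL FML tt
    dsimp only
    omega
  have hUG : add gU gG ∉ K := (hE gU ⟨_, T_U⟩ gG ⟨_, T_G⟩).2 ⟨hU, hG⟩
  have hUGG : add (add gU gG) gG ∉ K := (hE _ ⟨_, T_add T_U T_G⟩ gG ⟨_, T_G⟩).2 ⟨hUG, hG⟩
  have hT := T_add (T_add T_U T_G) T_G
  have h1 := wins_of_outcome (hK.2.2 _ ⟨_, hT⟩ hUGG).1 true
  rw [T_wins false true hT, T_wins true true (T_add hT T_star)] at h1
  revert h1
  unfold F FNL FML tt V.plus
  dsimp only
  omega

end Game

open Game

/-- There is a closed set `A` of dicotic games with `* ∈ A` and with the evil twin property such that `(A, K)` is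
not evilly normal for any evil kernel `K` of `A`. Moreover `A` and one evil kernel of `A` do not distinguish games
which are the same up to the order and the repetition of options, and `A` contains `G = {0, *2 | 0, u, d}`. -/
theorem result : ∃ A : Set Game, Invariant A ∧ (∀ x ∈ A, Dicotic x) ∧ Closed A ∧ star ∈ A ∧ gG ∈ A ∧
    (∃ K : Set Game, Invariant K ∧ EvilKernel A K) ∧
    ∀ K : Set Game, EvilKernel A K → ¬ EvillyNormal A K :=
  ⟨setA, invariant_A, fun _ ⟨_, hx⟩ => T_dicotic hx, closed_A, ⟨_, T_star⟩, ⟨_, T_G⟩,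
    ⟨setK, invariant_K, evilKernel⟩, fun _ hK => not_evillyNormal hK⟩

end Pool.Agent.Results.MP_df1cff_co.NoEvillyNormalKernel
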